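import Pool.Agent.Lib.MP_8a52c3_lc.PM.Defs

/-! Peeling of one unit. -/

open Finset Matrix
open scoped BigOperators

namespace Pool.Agent.Lib.MP_8a52c3_lc.PM

open H91S (fro)

theorem blA_fro_sum {C ι : Type} [Fintype C] [Fintype ι] (D : C → Matrix ι ι ℝ) :
    fro (∑ c, D c) ≤ (Fintype.card C : ℝ) * ∑ c, fro (D c) := by
  unfold fro
  rw [Finset.sum_comm, Finset.mul_sum]
  conv_rhs => rw [← Finset.mul_sum, Finset.sum_comm, Finset.mul_sum]
  rw [Finset.sum_comm]
  refine Finset.sum_le_sum fun i _ => ?_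
  conv_rhs => rw [Finset.sum_comm, Finset.mul_sum]
  refine Finset.sum_le_sum fun j _ => ?_
  rw [Matrix.sum_apply]
  exact sq_sum_le_card_mul_sum_sq (s := univ) (f := fun c => D c i j)

theorem many {C ι : Type} [Fintype C] [DecidableEq C] [Fintype ι] [DecidableEq ι] (t : ℝ)
    (ht : 1 ≤ t) (c0 : C) (P : C → Matrix ι ι ℝ) (hP : ∀ c, (P c).PosSemidef) :
    ∃ B : Matrix (Option C × ι) (Option C × ι) ℝ, B.PosSemidef ∧
      (∀ c i j, P c i j = ∑ β, ∑ β', uo t c β * uo t c β' * B (β, i) (β', j)) ∧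
      fro B ≤ 2 * fro (P c0) + 2 * t ^ 4 * (Fintype.card C : ℝ) * ∑ c, fro (P c - P c0) := by
  choose L pL eL using fun c => H91S.exists_sqrt (P c) (hP c)
  have sL : ∀ c i j, L c j i = L c i j := fun c i j =>
    congrFun (congrFun (H91S.psd_symm (L c) (pL c)) i) j
  have ht0 : t ≠ 0 := by linarith
  let K : Matrix (Option C × ι) ι ℝ := Matrix.of fun p l =>
    p.1.elim (L c0 p.2 l) fun c => t * (L c p.2 l - L c0 p.2 l)
  have hK : ∀ c i l, ∑ β, uo t c β * K (β, i) l = L c i l := fun c i l => by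
    simp only [Fintype.sum_option, uo, K, Matrix.of_apply, Option.elim, ite_mul, zero_mul,
      Finset.sum_ite_eq, Finset.mem_univ, if_true]
    field_simp
    ring
  refine ⟨K * Kᵀ, ?_, fun c i j => ?_, ?_⟩
  · have := posSemidef_self_mul_conjTranspose K
    rwa [Matrix.conjTranspose_eq_transpose_of_trivial] at this
  · have e : ∀ l, L c i l * L c l j =
        ∑ β, ∑ β', uo t c β * uo t c β' * (K (β, i) l * K (β', j) l) := fun l => by
      rw [sL c j l, ← hK c i l, ← hK c j l, Finset.sum_mul_sum]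
      exact Finset.sum_congr rfl fun β _ => Finset.sum_congr rfl fun β' _ => by ring
    rw [← eL c, Matrix.mul_apply]
    simp only [e, Matrix.mul_apply, Matrix.transpose_apply, Finset.mul_sum]
    rw [Finset.sum_comm]
    exact Finset.sum_congr rfl fun β _ => Finset.sum_comm
  · rw [H91S.fro_mul_transpose]
    have e : Kᵀ * K = P c0 + t ^ 2 • ∑ c, (L c - L c0) * (L c - L c0) := by
      rw [← eL c0]
      ext i j
      simp only [Matrix.mul_apply, Matrix.transpose_apply, K, Matrix.of_apply,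
        Fintype.sum_prod_type, Fintype.sum_option, Option.elim, Matrix.add_apply,
        Matrix.smul_apply, Matrix.sum_apply, Matrix.sub_apply, smul_eq_mul, Finset.mul_sum]
      refine congrArg₂ (· + ·) (Finset.sum_congr rfl fun l _ => by rw [sL c0 i l])
        (Finset.sum_congr rfl fun c _ => Finset.sum_congr rfl fun l _ => ?_)
      rw [sL c0 i l, sL c i l]
      ring
    rw [e]
    refine le_trans (H91S.fro_add_le _ _) ?_
    rw [H91S.fro_smul, show (t ^ 2) ^ 2 = t ^ 4 by ring]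
    have h1 : ∑ c, fro ((L c - L c0) * (L c - L c0)) ≤ ∑ c, fro (P c - P c0) :=
      Finset.sum_le_sum fun c _ => by
        have h := H91S.ps (L c) (L c0) (pL c) (pL c0)
        rwa [eL, eL] at h
    have h2 := (blA_fro_sum fun c => (L c - L c0) * (L c - L c0)).trans
      (mul_le_mul_of_nonneg_left h1 (by positivity))
    have h3 := mul_le_mul_of_nonneg_left h2 (by positivity : (0 : ℝ) ≤ t ^ 4)
    linarith

theorem blA_ex_fro {X ι : Type} [Fintype X] [Fintype ι] (A : X → Matrix ι ι ℝ) :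
    𝔼 x, fro (A x) = ∑ i, ∑ j, 𝔼 x, A x i j ^ 2 := by
  simp only [fro, Finset.expect_sum_comm]

theorem block {X C Γ Ω Y ι : Type} [Fintype X] [Fintype C] [DecidableEq C] [Fintype Γ] [Fintype Ω]
    [Fintype ι] [DecidableEq ι] (col : X → C → Γ → Y) (rf : Ω → Y) (c0 : C) (C0 ε : ℝ)
    (hM : Mix col rf c0 C0 ε) (t : ℝ) (ht : 1 ≤ t)
    (hε : t ^ 4 * (Fintype.card C : ℝ) ^ 2 * ε ≤ 1) (b : Y → Matrix ι ι ℝ)
    (hb : ∀ y, (b y).PosSemidef) :
    ∃ B : X → Matrix (Option C × ι) (Option C × ι) ℝ, (∀ x, (B x).PosSemidef) ∧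
      (∀ x c i j, 𝔼 γ, b (col x c γ) i j
        = ∑ β, ∑ β', uo t c β * uo t c β' * B x (β, i) (β', j)) ∧
      𝔼 x, fro (B x) ≤ (2 * C0 + 2) * 𝔼 ω, fro (b (rf ω)) := by
  let P : X → C → Matrix ι ι ℝ := fun x c => (Fintype.card Γ : ℝ)⁻¹ • ∑ γ, b (col x c γ)
  have hP : ∀ x c, (P x c).PosSemidef := fun x c =>
    (posSemidef_sum Finset.univ fun γ _ => hb _).smul (by positivity)
  have hE : ∀ x c i j, P x c i j = 𝔼 γ, b (col x c γ) i j := fun x c i j => by
    rw [Mono.ex_eq_sum, div_eq_inv_mul]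
    simp only [P, Matrix.smul_apply, Matrix.sum_apply, smul_eq_mul]
  choose B h1 h2 h3 using fun x => many t ht c0 (P x) (hP x)
  refine ⟨B, h1, fun x c i j => (hE x c i j).symm.trans (h2 x c i j), ?_⟩
  have hF : 0 ≤ 𝔼 ω, fro (b (rf ω)) := Mono.ex_nonneg fun ω => H91S.fro_nonneg _
  have ha : 𝔼 x, fro (P x c0) ≤ C0 * 𝔼 ω, fro (b (rf ω)) := by
    rw [blA_ex_fro, blA_ex_fro]
    simp only [Finset.mul_sum, hE]
    exact Finset.sum_le_sum fun i _ => Finset.sum_le_sum fun j _ => hM.base fun y => b y i j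
  have hd : ∀ c, 𝔼 x, fro (P x c - P x c0) ≤ ε * 𝔼 ω, fro (b (rf ω)) := fun c => by
    rw [blA_ex_fro, blA_ex_fro]
    simp only [Finset.mul_sum, Matrix.sub_apply, hE]
    exact Finset.sum_le_sum fun i _ => Finset.sum_le_sum fun j _ => hM.diff c fun y => b y i j
  have hs : ∑ c, 𝔼 x, fro (P x c - P x c0) ≤ Fintype.card C * (ε * 𝔼 ω, fro (b (rf ω))) := by
    refine (Finset.sum_le_sum fun c _ => hd c).trans_eq ?_
    rw [Finset.sum_const, Finset.card_univ, nsmul_eq_mul]
  refine (Mono.ex_mono h3).trans ?_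
  rw [Finset.expect_add_distrib, ← Finset.mul_expect, ← Finset.mul_expect,
    Finset.expect_sum_comm]
  have h4 := mul_le_mul_of_nonneg_left hs
    (by positivity : (0 : ℝ) ≤ 2 * t ^ 4 * (Fintype.card C : ℝ))
  have h5 := mul_le_mul_of_nonneg_right hε hF
  generalize 𝔼 ω, fro (b (rf ω)) = F at *
  nlinarith

end Pool.Agent.Lib.MP_8a52c3_lc.PM
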