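import Pool.Agent.Lib.MP_8a52c3_lc.PM.Defs

/-! Low and high part of a lifted matrix. -/

open Finset Matrix
open scoped BigOperators

namespace Pool.Agent.Lib.MP_8a52c3_lc.PM

open H91S (fro)

lemma loA_prod {C : Type} [DecidableEq C] (t : ℝ) {k : ℕ} (s : Fin k → C)
    (ρ : Fin k → Option C) : ∏ u, uo t (s u) (ρ u) = (t ^ wo ρ)⁻¹ * ag ρ s := by
  have h : (t ^ wo ρ)⁻¹ = ∏ u, if (ρ u).isSome = true then t⁻¹ else 1 := by
    rw [← prod_filter, prod_const, inv_pow, wo]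
  rw [h, ag, ← prod_mul_distrib]
  refine prod_congr rfl fun u _ => ?_
  cases ρ u <;> simp [uo]

lemma loA_ag {C : Type} [DecidableEq C] {k : ℕ} (s : Fin k → C) (ρ : Fin k → Option C) :
    0 ≤ ag ρ s ∧ ag ρ s ≤ 1 := by
  have h : ∀ u, 0 ≤ uo 1 (s u) (ρ u) ∧ uo 1 (s u) (ρ u) ≤ 1 := by
    intro u
    cases ρ u with
    | none => simp [uo]
    | some c =>
      simp only [uo]
      split_ifs <;> simp
  exact ⟨prod_nonneg fun u _ => (h u).1, prod_le_one (fun u _ => (h u).1) fun u _ => (h u).2⟩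

lemma loA_abs {P ι : Type} [Fintype P] [Fintype ι] (BB : Matrix (P × ι) (P × ι) ℝ) {κ : ℝ}
    (hκ0 : 0 ≤ κ) (hκ : (Fintype.card P : ℝ) ^ 2 * fro BB ≤ κ ^ 2) (v : ι → ℝ) :
    ∑ ρ, ∑ ρ', |∑ i, ∑ j, v i * v j * BB (ρ, i) (ρ', j)| ≤ κ * ∑ i, v i ^ 2 := by
  have hv : 0 ≤ ∑ i, v i ^ 2 := by positivity
  refine (abs_le_of_sq_le_sq' ?_ (mul_nonneg hκ0 hv)).2
  rw [← Fintype.sum_prod_type']
  refine sq_sum_le_card_mul_sum_sq.trans ?_
  have h1 : ∀ ρ ρ', (∑ i, ∑ j, v i * v j * BB (ρ, i) (ρ', j)) ^ 2 ≤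
      (∑ i, v i ^ 2) ^ 2 * ∑ i, ∑ j, BB (ρ, i) (ρ', j) ^ 2 := by
    intro ρ ρ'
    rw [← Fintype.sum_prod_type', ← Fintype.sum_prod_type']
    refine (sum_mul_sq_le_sq_mul_sq univ (fun p : ι × ι => v p.1 * v p.2) _).trans (le_of_eq ?_)
    congr 1
    rw [Fintype.sum_prod_type, sq (∑ i, v i ^ 2), sum_mul_sum]
    exact sum_congr rfl fun i _ => sum_congr rfl fun j _ => mul_pow _ _ _
  have h2 : ∑ p : P × P, ∑ i, ∑ j, BB (p.1, i) (p.2, j) ^ 2 = fro BB := by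
    simp only [fro, Fintype.sum_prod_type]
    exact sum_congr rfl fun ρ _ => sum_comm
  simp only [sq_abs]
  refine (mul_le_mul_of_nonneg_left (sum_le_sum fun p _ => h1 p.1 p.2)
    (Nat.cast_nonneg _)).trans ?_
  rw [← mul_sum, h2, card_univ, Fintype.card_prod, Nat.cast_mul, ← sq, mul_pow, mul_comm _ (fro BB),
    ← mul_assoc]
  exact mul_le_mul_of_nonneg_right hκ (by positivity)

theorem lower {C Z ι : Type} [Fintype C] [DecidableEq C] [Fintype Z] [Fintype ι] [DecidableEq ι]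
    (t : ℝ) (ht : 1 ≤ t) (k r : ℕ) (s : Z → Fin k → C) (σ : Z → ℝ) (Λ : ℝ) (hΛ : 0 ≤ Λ)
    (hσ : ∀ z, |σ z| ≤ Λ)
    (Q2 : ∀ p : (Fin k → Option C) → ℝ, (∀ ρ, r < wo ρ → p ρ = 0) →
      0 ≤ 𝔼 z, σ z * (∑ ρ, p ρ * ag ρ (s z)) ^ 2)
    (BB : Matrix ((Fin k → Option C) × ι) ((Fin k → Option C) × ι) ℝ) (hBB : BB.PosSemidef)
    (κ : ℝ) (hκ0 : 0 ≤ κ) (hκ : (((Fintype.card C : ℝ) + 1) ^ 2) ^ k * fro BB ≤ κ ^ 2)
    (v : ι → ℝ) :
    -((t ^ r)⁻¹ * Λ * κ * ∑ i, v i ^ 2) ≤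
      𝔼 z, σ z * ∑ i, ∑ j, v i * v j * ∑ ρ : Fin k → Option C, ∑ ρ' : Fin k → Option C,
        (∏ u, uo t (s z u) (ρ u)) * (∏ u, uo t (s z u) (ρ' u)) * BB (ρ, i) (ρ', j) := by
  have hv : 0 ≤ ∑ i, v i ^ 2 := by positivity
  have ht0 : 0 < t := by linarith
  rcases isEmpty_or_nonempty Z with hZ | hZ
  · rw [univ_eq_empty (α := Z), expect_empty, neg_nonpos]
    positivity
  have hR := loA_abs BB hκ0 (by
    rwa [Fintype.card_fun, Fintype.card_option, Fintype.card_fin, Nat.cast_pow, ← pow_mul,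
      mul_comm k, pow_mul, Nat.cast_succ]) v
  obtain ⟨R, hRd⟩ : ∃ R : (Fin k → Option C) → (Fin k → Option C) → ℝ,
    ∀ ρ ρ', ∑ i, ∑ j, v i * v j * BB (ρ, i) (ρ', j) = R ρ ρ' := ⟨_, fun _ _ => rfl⟩
  simp only [hRd] at hR
  obtain ⟨G, hG⟩ := H91S.psd_gram BB hBB
  let p : (Fin k → Option C) × ι → (Fin k → Option C) → ℝ := fun l ρ =>
    (if r < wo ρ then 0 else (t ^ wo ρ)⁻¹) * ∑ i, v i * G l (ρ, i)
  have hlow : 0 ≤ 𝔼 z, ∑ l, σ z * (∑ ρ, p l ρ * ag ρ (s z)) ^ 2 := by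
    rw [expect_sum_comm]
    exact sum_nonneg fun l _ => Q2 _ fun ρ h => by simp only [p, if_pos h, zero_mul]
  have e1 : ∀ z, ∑ i, ∑ j, v i * v j * ∑ ρ : Fin k → Option C, ∑ ρ' : Fin k → Option C,
      (∏ u, uo t (s z u) (ρ u)) * (∏ u, uo t (s z u) (ρ' u)) * BB (ρ, i) (ρ', j) =
      ∑ ρ, ∑ ρ', (t ^ wo ρ)⁻¹ * ag ρ (s z) * ((t ^ wo ρ')⁻¹ * ag ρ' (s z)) * R ρ ρ' := by
    intro z
    simp only [loA_prod, ← hRd, mul_sum]
    have e3 : ∀ {γ : Type} [Fintype γ] (F : ι → ι → γ → ℝ),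
        ∑ i, ∑ j, ∑ c, F i j c = ∑ c, ∑ i, ∑ j, F i j c := by
      intro γ _ F
      conv_rhs => rw [sum_comm]
      exact sum_congr rfl fun i _ => sum_comm
    rw [e3]
    refine sum_congr rfl fun ρ _ => ?_
    rw [e3]
    exact sum_congr rfl fun ρ' _ => sum_congr rfl fun i _ => sum_congr rfl fun j _ => by ring
  have e2 : ∀ z, ∑ l, (∑ ρ, p l ρ * ag ρ (s z)) ^ 2 =
      ∑ ρ, ∑ ρ', (if r < wo ρ then 0 else (t ^ wo ρ)⁻¹) * ag ρ (s z) *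
        ((if r < wo ρ' then 0 else (t ^ wo ρ')⁻¹) * ag ρ' (s z)) * R ρ ρ' := by
    intro z
    have e3 : ∀ ρ ρ', R ρ ρ' = ∑ l, (∑ i, v i * G l (ρ, i)) * ∑ i, v i * G l (ρ', i) := by
      intro ρ ρ'
      simp only [← hRd, hG, sum_mul_sum]
      simp only [mul_sum]
      conv_rhs => rw [sum_comm]
      refine sum_congr rfl fun i _ => ?_
      conv_rhs => rw [sum_comm]
      exact sum_congr rfl fun j _ => sum_congr rfl fun l _ => by ring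
    simp only [sq]
    simp only [sum_mul_sum univ univ (fun ρ => p _ ρ * ag ρ (s z))]
    rw [sum_comm]
    refine sum_congr rfl fun ρ _ => ?_
    rw [sum_comm]
    refine sum_congr rfl fun ρ' _ => ?_
    rw [e3, mul_sum]
    exact sum_congr rfl fun l _ => by simp only [p]; ring
  have hw : ∀ n : ℕ, 0 ≤ (t ^ n)⁻¹ ∧ (t ^ n)⁻¹ ≤ 1 ∧ (r < n → (t ^ n)⁻¹ ≤ (t ^ r)⁻¹) := fun n =>
    ⟨by positivity, inv_le_one_of_one_le₀ (one_le_pow₀ ht),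
      fun h => inv_anti₀ (by positivity) (pow_le_pow_right₀ ht h.le)⟩
  have hd : ∀ z ρ ρ', |(t ^ wo ρ)⁻¹ * ag ρ (s z) * ((t ^ wo ρ')⁻¹ * ag ρ' (s z)) -
      (if r < wo ρ then 0 else (t ^ wo ρ)⁻¹) * ag ρ (s z) *
        ((if r < wo ρ' then 0 else (t ^ wo ρ')⁻¹) * ag ρ' (s z))| ≤ (t ^ r)⁻¹ := by
    intro z ρ ρ'
    obtain ⟨a1, a2⟩ := loA_ag (s z) ρ
    obtain ⟨b1, b2⟩ := loA_ag (s z) ρ'
    obtain ⟨c1, c2, c3⟩ := hw (wo ρ)
    obtain ⟨d1, d2, d3⟩ := hw (wo ρ')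
    have f1 := mul_nonneg c1 a1
    have f2 := mul_nonneg d1 b1
    have g1 := mul_le_of_le_one_right c1 a2
    have g2 := mul_le_of_le_one_right d1 b2
    split_ifs with h h' h'
    · rw [zero_mul, zero_mul, sub_zero, abs_of_nonneg (mul_nonneg f1 f2)]
      exact (mul_le_of_le_one_right f1 (g2.trans d2)).trans (g1.trans (c3 h))
    · rw [zero_mul, zero_mul, sub_zero, abs_of_nonneg (mul_nonneg f1 f2)]
      exact (mul_le_of_le_one_right f1 (g2.trans d2)).trans (g1.trans (c3 h))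
    · rw [zero_mul, mul_zero, sub_zero, abs_of_nonneg (mul_nonneg f1 f2)]
      exact (mul_le_of_le_one_left f2 (g1.trans c2)).trans (g2.trans (d3 h'))
    · rw [sub_self, abs_zero]
      positivity
  refine le_trans ?_ (expect_le_expect (f := fun z => ∑ l, σ z * (∑ ρ, p l ρ * ag ρ (s z)) ^ 2 +
    -((t ^ r)⁻¹ * Λ * κ * ∑ i, v i ^ 2)) fun z _ => ?_)
  · rw [expect_add_distrib, expect_const univ_nonempty]
    linarith
  · rw [← mul_sum, e1, e2, ← le_sub_iff_add_le', ← mul_sub, ← sum_sub_distrib]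
    refine (abs_le.1 ?_).1
    rw [abs_mul, mul_comm (t ^ r)⁻¹, mul_assoc, mul_assoc]
    refine mul_le_mul (hσ z) ?_ (abs_nonneg _) hΛ
    refine (abs_sum_le_sum_abs _ _).trans (le_trans ?_
      (mul_le_mul_of_nonneg_left hR (hw r).1))
    rw [mul_sum]
    refine sum_le_sum fun ρ _ => ?_
    rw [← sum_sub_distrib, mul_sum]
    refine (abs_sum_le_sum_abs _ _).trans (sum_le_sum fun ρ' _ => ?_)
    rw [← sub_mul, abs_mul]
    exact mul_le_mul_of_nonneg_right (hd z ρ ρ') (abs_nonneg _)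

end Pool.Agent.Lib.MP_8a52c3_lc.PM
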