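import Pool.Agent.Lib.MP_8a52c3_lc.PM.Lift
import Pool.Agent.Lib.MP_8a52c3_lc.PM.Lower

/-! The abstract lower bound on the size of a semidefinite factorisation. -/

open Finset Matrix
open scoped BigOperators

namespace Pool.Agent.Lib.MP_8a52c3_lc.PM

open H91S (fro)

theorem core {X C Γ Ω Y Z ι : Type} [Fintype X] [Nonempty X] [Fintype C] [DecidableEq C]
    [Fintype Γ] [Fintype Ω] [Nonempty Ω] [Fintype Z] [Fintype ι] [DecidableEq ι] [Nonempty ι]
    (col : X → C → Γ → Y) (rf : Ω → Y) (c0 : C) (C0 ε : ℝ)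
    (hM : Mix col rf c0 C0 ε) (hC0 : 0 ≤ C0) (t : ℝ) (ht : 1 ≤ t)
    (hε : t ^ 4 * (Fintype.card C : ℝ) ^ 2 * ε ≤ 1) (k r : ℕ)
    (s : Z → Fin k → C) (σ : Z → ℝ) (Λ : ℝ) (hΛ : 0 ≤ Λ) (hσ : ∀ z, |σ z| ≤ Λ)
    (Q2 : ∀ p : (Fin k → Option C) → ℝ, (∀ ρ, r < wo ρ → p ρ = 0) →
      0 ≤ 𝔼 z, σ z * (∑ ρ, p ρ * ag ρ (s z)) ^ 2)
    (A : (Fin k → Y) → Matrix ι ι ℝ) (B : (Fin k → X) → Matrix ι ι ℝ)
    (hA : ∀ y, (A y).PosSemidef) (hB : ∀ x, (B x).PosSemidef) (hsum : ∑ x, B x = 1)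
    (f : (Fin k → X) → (Fin k → Y) → ℝ) (hf : ∀ x y, f x y = ∑ i, ∑ j, A y i j * B x i j)
    (D : ℝ) (hD0 : 0 < D) (hD : ∀ x y, f x y ≤ D)
    (hneg : ∀ x, 𝔼 z, σ z * 𝔼 γ : Fin k → Γ, f x (fun u => col (x u) (s z u) (γ u)) ≤ -1) :
    t ^ (2 * r) ≤ 8 * Λ ^ 2 * (((Fintype.card C : ℝ) + 1) ^ 2 * (2 * C0 + 2)) ^ k * D ^ 2 *
      (Fintype.card ι : ℝ) ^ 2 := by
  set N : ℝ := (Fintype.card (Fin k → X) : ℝ) with hN
  have hN0 : 0 < N := by rw [hN]; exact_mod_cast Fintype.card_pos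
  set m : ℝ := (Fintype.card ι : ℝ) with hm
  have hm0 : 0 < m := by rw [hm]; exact_mod_cast Fintype.card_pos
  have ht0 : 0 < t := by linarith
  have trA : ∀ y, trace (A y) ≤ N * D := by
    intro y
    have e : trace (A y) = ∑ x, f x y := by
      simp only [hf]
      rw [Finset.sum_comm]
      unfold trace Matrix.diag
      refine Finset.sum_congr rfl fun i _ => ?_
      rw [Finset.sum_comm]
      simp only [← Finset.mul_sum]
      have : ∀ j, ∑ x, B x i j = (1 : Matrix ι ι ℝ) i j := fun j => by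
        rw [← hsum, Matrix.sum_apply]
      simp only [this, Matrix.one_apply, mul_ite, mul_one, mul_zero, Finset.sum_ite_eq,
        Finset.mem_univ, if_true]
    rw [e]
    calc ∑ x, f x y ≤ ∑ _x : Fin k → X, D := Finset.sum_le_sum fun x _ => hD x y
      _ = N * D := by rw [Finset.sum_const, Finset.card_univ, nsmul_eq_mul]
  have froA : ∀ y, fro (A y) ≤ (N * D) ^ 2 := fun y =>
    (H91S.fro_le_trace_sq (A y) (hA y)).trans
      (pow_le_pow_left₀ (hA y).trace_nonneg (trA y) 2)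
  obtain ⟨BB, g1, g2, g3⟩ := lift col rf c0 C0 ε hM hC0 t ht hε k ι A hA
  set K : ℝ := (2 * C0 + 2) ^ k with hK
  have hK0 : 0 < K := by rw [hK]; positivity
  set α : ℝ := K * (N * D) ^ 2 with hα
  have hα0 : 0 < α := by rw [hα]; positivity
  have g4 : 𝔼 x, fro (BB x) ≤ α :=
    g3.trans (mul_le_mul_of_nonneg_left (Mono.ex_le fun ω => froA _) hK0.le)
  have g5 : ∑ x, fro (BB x) ≤ α * N := by
    rw [Mono.ex_eq_sum, div_le_iff₀ hN0] at g4
    exact g4
  have trB : ∑ x, trace (B x) = m := by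
    rw [← Matrix.trace_sum, hsum, Matrix.trace_one]
  set β : ℝ := m / N with hβ
  have hβ0 : 0 < β := by rw [hβ]; positivity
  obtain ⟨x, -, hx⟩ : ∃ x ∈ (Finset.univ : Finset (Fin k → X)),
      fro (BB x) / α + trace (B x) / β ≤ 2 := by
    apply Finset.exists_le_of_sum_le Finset.univ_nonempty
    rw [Finset.sum_add_distrib, ← Finset.sum_div, ← Finset.sum_div, trB, Finset.sum_const,
      Finset.card_univ, nsmul_eq_mul, ← hN]
    have a1 : (∑ x, fro (BB x)) / α ≤ N := by rw [div_le_iff₀ hα0]; linarith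
    have a2 : m / β = N := by rw [hβ]; field_simp
    linarith
  have b1 : fro (BB x) ≤ 2 * α := by
    have : 0 ≤ trace (B x) / β := div_nonneg (hB x).trace_nonneg hβ0.le
    have h : fro (BB x) / α ≤ 2 := by linarith
    rwa [div_le_iff₀ hα0] at h
  have b2 : trace (B x) ≤ 2 * β := by
    have : 0 ≤ fro (BB x) / α := div_nonneg (H91S.fro_nonneg _) hα0.le
    have h : trace (B x) / β ≤ 2 := by linarith
    rwa [div_le_iff₀ hβ0] at h
  obtain ⟨G, hG⟩ := H91S.psd_gram (B x) (hB x)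
  have trG : ∑ l, ∑ i, G l i ^ 2 = trace (B x) := by
    rw [Finset.sum_comm]
    unfold trace Matrix.diag
    refine Finset.sum_congr rfl fun i _ => ?_
    rw [hG i i]
    exact Finset.sum_congr rfl fun l _ => sq _
  set M : ℝ := (((Fintype.card C : ℝ) + 1) ^ 2) ^ k with hMM
  have hM0 : 0 ≤ M := by rw [hMM]; positivity
  set κ : ℝ := Real.sqrt (M * (2 * α)) with hκ
  have hκ0 : 0 ≤ κ := Real.sqrt_nonneg _
  have hκ2 : κ ^ 2 = M * (2 * α) := Real.sq_sqrt (by positivity)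
  have hκ3 : M * fro (BB x) ≤ κ ^ 2 := by
    rw [hκ2]; exact mul_le_mul_of_nonneg_left b1 hM0
  have low := fun l => lower t ht k r s σ Λ hΛ hσ Q2 (BB x) (g1 x) κ hκ0 hκ3 (G l)
  have ef : ∀ z, 𝔼 γ : Fin k → Γ, f x (fun u => col (x u) (s z u) (γ u))
      = ∑ l, ∑ i, ∑ j, G l i * G l j * ∑ ρ : Fin k → Option C, ∑ ρ' : Fin k → Option C,
        (∏ u, uo t (s z u) (ρ u)) * (∏ u, uo t (s z u) (ρ' u)) * BB x (ρ, i) (ρ', j) := by
    intro z
    simp only [hf]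
    rw [Finset.expect_sum_comm, Finset.sum_comm]
    refine Finset.sum_congr rfl fun i _ => ?_
    rw [Finset.expect_sum_comm, Finset.sum_comm]
    refine Finset.sum_congr rfl fun j _ => ?_
    rw [← Finset.expect_mul, g2 x (s z) i j, hG i j, ← Finset.sum_mul, mul_comm]
  have tot : -((t ^ r)⁻¹ * Λ * κ * trace (B x)) ≤ -1 := by
    refine le_trans ?_ (hneg x)
    simp only [ef, Finset.mul_sum (s := (Finset.univ : Finset ι)) (a := σ _)
      (f := fun l => ∑ i, ∑ j, G l i * G l j * ∑ ρ : Fin k → Option C,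
        ∑ ρ' : Fin k → Option C, (∏ u, uo t (s _ u) (ρ u)) * (∏ u, uo t (s _ u) (ρ' u))
          * BB x (ρ, i) (ρ', j))]
    rw [Finset.expect_sum_comm, ← trG, Finset.mul_sum, ← Finset.sum_neg_distrib]
    exact Finset.sum_le_sum fun l _ => low l
  have htr : 0 < t ^ r := by positivity
  have c1 : t ^ r ≤ Λ * κ * (2 * β) := by
    have d1 : 1 ≤ (t ^ r)⁻¹ * (Λ * κ * trace (B x)) := by linarith
    rw [le_inv_mul_iff₀ htr, mul_one] at d1
    exact d1.trans (mul_le_mul_of_nonneg_left b2 (mul_nonneg hΛ hκ0))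
  calc t ^ (2 * r) = (t ^ r) ^ 2 := by rw [mul_comm, pow_mul]
    _ ≤ (Λ * κ * (2 * β)) ^ 2 := pow_le_pow_left₀ htr.le c1 2
    _ = Λ ^ 2 * κ ^ 2 * (4 * β ^ 2) := by ring
    _ = _ := by
      rw [hκ2, mul_pow, ← hMM, ← hK, hα, hβ]
      field_simp
      ring

end Pool.Agent.Lib.MP_8a52c3_lc.PM
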