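import Pool.Agent.Lib.MP_8a52c3_lc.H91SB
import Pool.Agent.Lib.MP_8a52c3_lc.Mono.Basic

/-! Definitions for the semidefinite lower bound on the perfect matching polytope. -/

open Finset
open scoped BigOperators

namespace Pool.Agent.Lib.MP_8a52c3_lc.PM

open Mono (ind)

/-- One factor of a damped indicator. -/
noncomputable def uo {C : Type} [DecidableEq C] (t : ℝ) (c : C) : Option C → ℝ
  | none => 1
  | some c' => if c = c' then t⁻¹ else 0

/-- Number of fixed places. -/
def wo {C : Type} {k : ℕ} (ρ : Fin k → Option C) : ℕ :=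
  (univ.filter fun u => (ρ u).isSome = true).card

/-- Indicator that the word `s` extends `ρ`. -/
noncomputable def ag {C : Type} [DecidableEq C] {k : ℕ} (ρ : Fin k → Option C) (s : Fin k → C) :
    ℝ := ∏ u, uo 1 (s u) (ρ u)

/-- The two mean square bounds of a gadget. -/
structure Mix {X C Γ Ω Y : Type} [Fintype X] [Fintype Γ] [Fintype Ω] (col : X → C → Γ → Y)
    (rf : Ω → Y) (c0 : C) (C0 ε : ℝ) : Prop where
  base : ∀ h : Y → ℝ, 𝔼 x, (𝔼 γ, h (col x c0 γ)) ^ 2 ≤ C0 * 𝔼 ω, h (rf ω) ^ 2
  diff : ∀ (c : C) (h : Y → ℝ),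
    𝔼 x, (𝔼 γ, h (col x c γ) - 𝔼 γ, h (col x c0 γ)) ^ 2 ≤ ε * 𝔼 ω, h (rf ω) ^ 2

/-- Slack of the odd set inequality of the colouring `c` at the matching `μ`. -/
noncomputable def slk {W : Type} [Fintype W] (μ : W → W) (c : W → Bool) : ℝ :=
  ((univ.filter fun w => c w ≠ c (μ w)).card : ℝ) / 2
    - ind (Odd (univ.filter fun w => c w = true).card)

/-! ### The gadget -/

/-- Chosen copy and a labelling of the ten points of each copy. -/
abbrev GX (L : ℕ) : Type := Fin L × (Fin L → Equiv.Perm (Fin 10))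

/-- A colouring of each copy. -/
abbrev GY (L : ℕ) : Type := Fin L → Fin 10 → Bool

/-- Colours of the five pairs of each copy. -/
abbrev GG (L : ℕ) : Type := Fin L → Fin 5 → Bool

/-- The pair of a label. -/
def half (p : Fin 10) : Fin 5 := ⟨p / 2, by omega⟩

/-- The other label of the pair. -/
def flp (p : Fin 10) : Fin 10 := ![1, 0, 3, 2, 5, 4, 7, 6, 9, 8] p

/-- Colours of the labels in the chosen copy: eight ports, their parity, and `false`. -/
def bar (s : Fin 8 → Bool) (p : Fin 10) : Bool :=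
  if h : (p : ℕ) < 8 then s ⟨p, h⟩
  else if (p : ℕ) = 8 then decide (Odd (univ.filter fun c => s c = true).card) else false

/-- The colouring of one unit. -/
def col {L : ℕ} (x : GX L) (s : Fin 8 → Bool) (γ : GG L) : GY L := fun i v =>
  if i = x.1 then bar s (x.2 i v) else γ i (half (x.2 i v))

/-- The reference colouring. -/
def rf {L : ℕ} (ω : (Fin L → Equiv.Perm (Fin 10)) × GG L) : GY L := fun i v =>
  ω.2 i (half (ω.1 i v))

/-! ### The matchings -/

/-- Vertices: `k` units of `L` copies of ten points and two extra points, and `d` spare pairs. -/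
abbrev WV (k L d : ℕ) : Type := (Fin k × (Fin L × Fin 10 ⊕ Bool)) ⊕ Fin d × Bool

/-- The matching on labels when copy `ι u` is chosen in unit `u`. -/
def m0 {k L d : ℕ} (pt : Fin k × Fin 8 → Fin k × Fin 8) (ι : Fin k → Fin L) :
    WV k L d → WV k L d
  | .inl (u, .inl (i, p)) =>
      if i = ι u then
        if h : (p : ℕ) < 8 then
          .inl ((pt (u, ⟨p, h⟩)).1,
            .inl (ι (pt (u, ⟨p, h⟩)).1, Fin.castLE (by norm_num) (pt (u, ⟨p, h⟩)).2))
        else .inl (u, .inr (decide ((p : ℕ) = 8)))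
      else .inl (u, .inl (i, flp p))
  | .inl (u, .inr β) => .inl (u, .inl (ι u, if β then 8 else 9))
  | .inr (j, β) => .inr (j, !β)

/-- Relabelling inside the copies. -/
def rl {k L d : ℕ} (ϖ : Fin k → Fin L → Equiv.Perm (Fin 10)) : WV k L d → WV k L d
  | .inl (u, .inl (i, v)) => .inl (u, .inl (i, ϖ u i v))
  | .inl (u, .inr β) => .inl (u, .inr β)
  | .inr w => .inr w

/-- The matching of `x`. -/
def mt {k L d : ℕ} (pt : Fin k × Fin 8 → Fin k × Fin 8) (x : Fin k → GX L) (w : WV k L d) :
    WV k L d :=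
  rl (fun u i => ((x u).2 i)⁻¹) (m0 pt (fun u => (x u).1) (rl (fun u => (x u).2) w))

/-- The colouring of all vertices. -/
def clr {k L d : ℕ} (b : Fin k → Bool) (y : Fin k → GY L) : WV k L d → Bool
  | .inl (u, .inl (i, v)) => y u i v
  | .inl (u, .inr β) => β && b u
  | .inr _ => false

end Pool.Agent.Lib.MP_8a52c3_lc.PM
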