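import Pool.Agent.Lib.MP_8a52c3_lc.PM.Defs

/-! Semidefinite factorisation of a slack matrix. -/

open Finset Matrix
open scoped BigOperators

namespace Pool.Agent.Lib.MP_8a52c3_lc.PM

theorem normal {X ι : Type} [Fintype X] [Nonempty X] [Fintype ι] [DecidableEq ι]
    (Z : X → Matrix ι ι ℝ) (hZ : ∀ x, (Z x).PosSemidef) :
    ∃ (H : Matrix ι ι ℝ) (B : X → Matrix ι ι ℝ), (∀ x, (B x).PosSemidef) ∧
      (∀ x, Z x = H * B x * Hᵀ) ∧ ∑ x, B x = 1 := by
  have hS : (∑ y, Z y).PosSemidef := posSemidef_sum Finset.univ fun y _ => hZ y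
  obtain ⟨U, d, h1, h2, h3⟩ := H91S.exists_diag _ hS.isHermitian
  have hd : ∀ i, 0 ≤ d i := by
    have := H91S.psd_conj _ hS U
    rw [h3] at this
    exact posSemidef_diagonal_iff.mp this
  have pZ : ∀ y, (Uᵀ * Z y * U).PosSemidef := fun y => H91S.psd_conj _ (hZ y) U
  have hsum : ∑ y, Uᵀ * Z y * U = diagonal d := by
    rw [← h3, Matrix.mul_sum, Matrix.sum_mul]
  have hz : ∀ y i j, d i = 0 → (Uᵀ * Z y * U) i j = 0 := by
    intro y i j hi
    have h0 : (Uᵀ * Z y * U) i i = 0 := by
      have h4 := congrFun (congrFun hsum i) i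
      rw [Matrix.sum_apply, diagonal_apply_eq, hi] at h4
      exact (Finset.sum_eq_zero_iff_of_nonneg (s := Finset.univ)
        (f := fun y => (Uᵀ * Z y * U) i i) fun y _ => (pZ y).diag_nonneg).mp h4 y (mem_univ y)
    have := H91S.psd_entry_sq _ (pZ y) i j
    rw [h0, zero_mul] at this
    exact pow_eq_zero_iff (two_ne_zero) |>.mp (le_antisymm this (sq_nonneg _))
  have hc : (0 : ℝ) < Fintype.card X := by exact_mod_cast Fintype.card_pos
  let G : Matrix ι ι ℝ := diagonal fun i => (Real.sqrt (d i))⁻¹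
  let R : Matrix ι ι ℝ := diagonal fun i => Real.sqrt (d i)
  let E : Matrix ι ι ℝ := diagonal fun i => if d i = 0 then (Fintype.card X : ℝ)⁻¹ else 0
  have pE : E.PosSemidef := posSemidef_diagonal_iff.mpr fun i => by
    split_ifs
    · exact (inv_pos.2 hc).le
    · exact le_rfl
  refine ⟨U * R, fun y => Gᵀ * (Uᵀ * Z y * U) * G + E,
    fun y => (H91S.psd_conj _ (pZ y) G).add pE, ?_, ?_⟩
  · intro y
    have e : R * (Gᵀ * (Uᵀ * Z y * U) * G + E) * Rᵀ = Uᵀ * Z y * U := by
      ext i j
      simp only [G, R, diagonal_transpose, mul_diagonal, diagonal_mul, Matrix.add_apply]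
      by_cases hi : d i = 0
      · rw [hz y i j hi]
        simp [hi]
      by_cases hj : d j = 0
      · have : (Uᵀ * Z y * U) i j = 0 := by
          rw [← congrFun (congrFun (H91S.psd_symm _ (pZ y)) i) j, Matrix.transpose_apply]
          exact hz y j i hj
        rw [this]
        simp [hj]
      have a0 : E i j = 0 := by simp [E, diagonal_apply, hi]
      have a1 : Real.sqrt (d i) ≠ 0 := fun h => hi ((Real.sqrt_eq_zero (hd i)).mp h)
      have a2 : Real.sqrt (d j) ≠ 0 := fun h => hj ((Real.sqrt_eq_zero (hd j)).mp h)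
      rw [a0]
      field_simp
      ring
    have e2 : U * R * (Gᵀ * (Uᵀ * Z y * U) * G + E) * (U * R)ᵀ
        = U * (R * (Gᵀ * (Uᵀ * Z y * U) * G + E) * Rᵀ) * Uᵀ := by
      simp only [Matrix.transpose_mul, Matrix.mul_assoc]
    rw [e2, e]
    have e3 : U * (Uᵀ * Z y * U) * Uᵀ = (U * Uᵀ) * Z y * (U * Uᵀ) := by
      simp only [Matrix.mul_assoc]
    rw [e3, h2, Matrix.one_mul, Matrix.mul_one]
  · rw [Finset.sum_add_distrib, ← Matrix.sum_mul, ← Matrix.mul_sum, hsum, Finset.sum_const,
      Finset.card_univ]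
    ext i j
    rw [Matrix.add_apply, Matrix.smul_apply, nsmul_eq_mul]
    by_cases hij : i = j
    · subst hij
      by_cases hi : d i = 0
      · simp [G, E, hi, hc.ne']
      · have a1 : Real.sqrt (d i) ≠ 0 := fun h => hi ((Real.sqrt_eq_zero (hd i)).mp h)
        have a2 := Real.mul_self_sqrt (hd i)
        simp only [G, E, diagonal_transpose, mul_diagonal, diagonal_apply_eq, if_neg hi, mul_zero,
          add_zero, one_apply_eq]
        field_simp
        linarith
    · simp [G, E, hij]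

private lemma faA_psd {κ : Type} [Fintype κ] (M : Matrix κ κ ℝ) :
    M.PosSemidef ↔ Mᵀ = M ∧ ∀ v : κ → ℝ, 0 ≤ ∑ i, ∑ j, M i j * (v i * v j) := by
  rw [posSemidef_iff_dotProduct_mulVec, IsHermitian, conjTranspose_eq_transpose_of_trivial]
  refine and_congr_right fun _ => forall_congr' fun v => ?_
  have : star v ⬝ᵥ (M *ᵥ v) = ∑ i, ∑ j, M i j * (v i * v j) := by
    simp only [star_trivial, dotProduct, mulVec, Finset.mul_sum]
    exact Finset.sum_congr rfl fun i _ => Finset.sum_congr rfl fun j _ => by ring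
  rw [this]

private lemma faA_dual {X κ : Type} [Fintype X] [Fintype κ] [DecidableEq κ]
    (B : X → Matrix κ κ ℝ) (hB : ∀ x, (B x).PosSemidef) (h1 : ∑ x, B x = 1) (l : X → ℝ)
    (hl : ∀ c : X → ℝ, (∑ x, c x • B x).PosSemidef → 0 ≤ ∑ x, c x * l x) :
    ∃ A : Matrix κ κ ℝ, A.PosSemidef ∧ ∀ x, l x = ∑ i, ∑ j, A i j * B x i j := by
  classical
  let Φ : (X → ℝ) →ₗ[ℝ] Matrix κ κ ℝ := Fintype.linearCombination ℝ B
  let Λ : (X → ℝ) →ₗ[ℝ] ℝ := Fintype.linearCombination ℝ l
  have hΦ : ∀ c, Φ c = ∑ x, c x • B x := fun c => Fintype.linearCombination_apply ℝ B c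
  have hΛ : ∀ c, (Φ c).PosSemidef → 0 ≤ Λ c := fun c hc => hl c hc
  have hk : Λ ∈ (LinearMap.ker Φ).dualAnnihilator := by
    rw [Submodule.mem_dualAnnihilator]
    intro c hc
    rw [LinearMap.mem_ker] at hc
    have a1 := hΛ c (by rw [hc]; exact PosSemidef.zero)
    have a2 := hΛ (-c) (by rw [map_neg, hc, neg_zero]; exact PosSemidef.zero)
    rw [map_neg] at a2
    linarith
  rw [← LinearMap.range_dualMap_eq_dualAnnihilator_ker] at hk
  obtain ⟨g0, hg0⟩ := hk
  have hg0' : ∀ c, g0 (Φ c) = Λ c := fun c => by rw [← hg0, LinearMap.dualMap_apply]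
  let s : PointedCone ℝ (Matrix κ κ ℝ) := PointedCone.ofConeComb
    {M | ∀ v : κ → ℝ, 0 ≤ ∑ i, ∑ j, M i j * (v i * v j)} ⟨0, fun v => by simp⟩ (by
      intro M hM N hN a ha b hb v
      have : ∑ i, ∑ j, (a • M + b • N) i j * (v i * v j) =
          a * ∑ i, ∑ j, M i j * (v i * v j) + b * ∑ i, ∑ j, N i j * (v i * v j) := by
        simp only [Finset.mul_sum, ← Finset.sum_add_distrib, Matrix.add_apply, Matrix.smul_apply,
          smul_eq_mul]
        exact Finset.sum_congr rfl fun i _ => Finset.sum_congr rfl fun j _ => by ring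
      rw [this]
      exact add_nonneg (mul_nonneg ha (hM v)) (mul_nonneg hb (hN v)))
  have hs : ∀ M, M ∈ s ↔ ∀ v : κ → ℝ, 0 ≤ ∑ i, ∑ j, M i j * (v i * v j) := fun M => Iff.rfl
  obtain ⟨g, hg1, hg2⟩ := riesz_extension s (g0.toPMap (LinearMap.range Φ)) (by
      rintro ⟨_, c, rfl⟩ hc
      refine (hΛ c ((faA_psd _).2 ⟨?_, (hs _).1 hc⟩)).trans_eq (hg0' c).symm
      rw [hΦ, Matrix.transpose_sum]
      exact Finset.sum_congr rfl fun x _ => by rw [transpose_smul, H91S.psd_symm _ (hB x)]) (by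
      intro M
      refine ⟨⟨_, fun _ => ∑ i, ∑ j, |M i j|, rfl⟩, (hs _).2 fun v => ?_⟩
      have e : ∑ i, ∑ j, (Φ (fun _ => ∑ i, ∑ j, |M i j|) + M) i j * (v i * v j) =
          ∑ i, ∑ j, (|M i j| * ∑ k, v k ^ 2 + M i j * (v i * v j)) := by
        rw [hΦ, ← Finset.smul_sum, h1]
        simp only [Matrix.add_apply, add_mul, Finset.sum_add_distrib, ← Finset.sum_mul]
        congr 1
        rw [Finset.mul_sum]
        refine Finset.sum_congr rfl fun i _ => ?_
        simp [one_apply, sq]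
      refine le_of_le_of_eq (Finset.sum_nonneg fun i _ => Finset.sum_nonneg fun j _ => ?_) e.symm
      have a1 : v i ^ 2 ≤ ∑ k, v k ^ 2 :=
        Finset.single_le_sum (f := fun k => v k ^ 2) (fun k _ => sq_nonneg _) (mem_univ i)
      have a2 : v j ^ 2 ≤ ∑ k, v k ^ 2 :=
        Finset.single_le_sum (f := fun k => v k ^ 2) (fun k _ => sq_nonneg _) (mem_univ j)
      have a3 : |v i * v j| ≤ ∑ k, v k ^ 2 :=
        abs_le.2 ⟨by nlinarith [sq_nonneg (v i + v j)], by nlinarith [sq_nonneg (v i - v j)]⟩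
      have a4 := neg_abs_le (M i j * (v i * v j))
      rw [abs_mul] at a4
      have a5 := mul_le_mul_of_nonneg_left a3 (abs_nonneg (M i j))
      linarith)
  have hg : ∀ M, g M = ∑ i, ∑ j, g (single i j 1) * M i j := by
    intro M
    conv_lhs => rw [matrix_eq_sum_single M]
    simp only [map_sum]
    refine Finset.sum_congr rfl fun i _ => Finset.sum_congr rfl fun j _ => ?_
    rw [mul_comm, ← smul_eq_mul, ← map_smul, smul_single, smul_eq_mul, mul_one]
  have ht : ∀ M : Matrix κ κ ℝ, g Mᵀ ≤ g M := by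
    intro M
    have := hg2 (M - Mᵀ) ((hs _).2 fun v => by
      simp only [Matrix.sub_apply, sub_mul, Finset.sum_sub_distrib, transpose_apply]
      rw [Finset.sum_comm (f := fun i j => M j i * (v i * v j))]
      simp only [mul_comm (v _) (v _), sub_self, le_refl])
    rw [map_sub] at this
    linarith
  refine ⟨Matrix.of fun i j => g (single i j 1), (faA_psd _).2 ⟨?_, fun v => ?_⟩, fun x => ?_⟩
  · ext i j
    have a1 := ht (single i j 1)
    have a2 := ht (single j i 1)
    rw [transpose_single] at a1 a2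
    exact le_antisymm a1 a2
  · have := hg2 (Matrix.of fun i j => v i * v j) ((hs _).2 fun w => by
      have e : ∑ i, ∑ j, (Matrix.of fun i j => v i * v j) i j * (w i * w j) =
          (∑ i, v i * w i) * ∑ i, v i * w i := by
        rw [Finset.sum_mul_sum]
        exact Finset.sum_congr rfl fun i _ => Finset.sum_congr rfl fun j _ => by
          rw [of_apply]
          ring
      rw [e]
      exact mul_self_nonneg _)
    rw [hg] at this
    exact this
  · have a1 : g (Φ (Pi.single x 1)) = g0 (Φ (Pi.single x 1)) := hg1 ⟨_, _, rfl⟩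
    rw [hg0', Fintype.linearCombination_apply_single, Fintype.linearCombination_apply_single,
      one_smul, one_smul, hg] at a1
    exact a1.symm

/-- A matrix with one more row and column. -/
private def faA_ext {ι : Type} (t : ℝ) (Z : Matrix ι ι ℝ) : Matrix (Option ι) (Option ι) ℝ :=
  Matrix.of fun a b => match a, b with
    | none, none => t
    | some i, some j => Z i j
    | _, _ => 0

private lemma faA_ext_psd {ι : Type} [Fintype ι] [DecidableEq ι] {Z : Matrix ι ι ℝ}
    (hZ : Z.PosSemidef) : (faA_ext 1 Z).PosSemidef := by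
  obtain ⟨h1, h2⟩ := (faA_psd Z).1 hZ
  refine (faA_psd _).2 ⟨?_, fun v => ?_⟩
  · ext a b
    rcases a with _ | i <;> rcases b with _ | j
    · rfl
    · rfl
    · rfl
    · exact congrFun (congrFun h1 i) j
  · simp only [Fintype.sum_option, faA_ext, of_apply, zero_mul, Finset.sum_const_zero, add_zero,
      zero_add, one_mul]
    exact add_nonneg (mul_self_nonneg _) (h2 fun i => v (some i))

theorem fact {X Y ι : Type} [Fintype X] [Nonempty X] [Fintype ι] [DecidableEq ι]
    (f : X → Y → ℝ) (Z : X → Matrix ι ι ℝ) (hZ : ∀ x, (Z x).PosSemidef)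
    (hstar : ∀ (y : Y) (c : X → ℝ), 0 < ∑ x, c x → (∑ x, c x • Z x).PosSemidef →
      0 ≤ ∑ x, c x * f x y) :
    ∃ (A : Y → Matrix (Option ι) (Option ι) ℝ) (B : X → Matrix (Option ι) (Option ι) ℝ),
      (∀ y, (A y).PosSemidef) ∧ (∀ x, (B x).PosSemidef) ∧ ∑ x, B x = 1 ∧
      ∀ x y, f x y = ∑ i, ∑ j, A y i j * B x i j := by
  obtain ⟨H, B, hB, hZB, h1⟩ := normal (fun x => faA_ext 1 (Z x)) fun x => faA_ext_psd (hZ x)
  have key : ∀ (y : Y) (c : X → ℝ), (∑ x, c x • B x).PosSemidef → 0 ≤ ∑ x, c x * f x y := by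
    intro y c hc
    have a1 : (∑ x, c x • faA_ext 1 (Z x)).PosSemidef := by
      have := H91S.psd_conj _ hc Hᵀ
      rw [transpose_transpose, Matrix.mul_sum, Matrix.sum_mul] at this
      simpa only [hZB, Matrix.mul_smul, Matrix.smul_mul] using this
    have a2 : 0 ≤ ∑ x, c x := by
      have := a1.diag_nonneg (i := none)
      simpa [Matrix.sum_apply, faA_ext] using this
    have a3 : (∑ x, c x • Z x).PosSemidef := by
      have := a1.submatrix some
      convert this using 1
      ext i j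
      simp [Matrix.sum_apply, faA_ext]
    refine le_of_forall_pos_le_add fun ε hε => ?_
    have a4 : 0 < |∑ x, f x y| + 1 := by positivity
    have a5 : 0 < ε / (|∑ x, f x y| + 1) := div_pos hε a4
    have a6 := hstar y (fun x => c x + ε / (|∑ x, f x y| + 1)) (by
      rw [Finset.sum_add_distrib]
      exact add_pos_of_nonneg_of_pos a2 (Finset.sum_pos (fun _ _ => a5) univ_nonempty)) (by
      simp only [add_smul, Finset.sum_add_distrib]
      exact a3.add (posSemidef_sum _ fun x _ => (hZ x).smul a5.le))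
    simp only [add_mul, Finset.sum_add_distrib, ← Finset.mul_sum] at a6
    have a7 : ε / (|∑ x, f x y| + 1) * ∑ x, f x y ≤ ε := by
      rw [div_mul_eq_mul_div, div_le_iff₀ a4]
      exact mul_le_mul_of_nonneg_left ((le_abs_self _).trans (by linarith)) hε.le
    linarith
  choose A hA hf using fun y => faA_dual B hB h1 (fun x => f x y) (key y)
  exact ⟨A, B, hA, hB, h1, fun x y => hf y x⟩

end Pool.Agent.Lib.MP_8a52c3_lc.PM
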