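import Pool.Agent.Lib.MP_8a52c3_lc.PM.Defs

/-! The mean square bounds of the matching gadget. -/

open Finset
open scoped BigOperators

namespace Pool.Agent.Lib.MP_8a52c3_lc.PM

open Mono

theorem gaA_card : ∀ s : Fin 8 → Bool, ∃ a : Fin 6, ∀ c : Bool,
    (univ.filter fun p => bar s p = c).card =
      (univ.filter fun p => decide ((half p : ℕ) < a) = c).card := by
  decide +kernel

theorem bar_eq (s : Fin 8 → Bool) :
    ∃ (θ : Equiv.Perm (Fin 10)) (g : Fin 5 → Bool), ∀ p, bar s p = g (half (θ p)) := by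
  obtain ⟨a, ha⟩ := gaA_card s
  have e : ∀ c : Bool, {p // bar s p = c} ≃ {p : Fin 10 // decide ((half p : ℕ) < a) = c} :=
    fun c => Fintype.equivOfCardEq (by
      rw [Fintype.card_subtype, Fintype.card_subtype]
      exact ha c)
  exact ⟨Equiv.ofFiberEquiv e, fun j => decide ((j : ℕ) < a),
    fun p => (Equiv.ofFiberEquiv_map e p).symm⟩

section Prod

variable {G : Type} [Fintype G] [Nonempty G] {L : ℕ}

theorem gaA_point (a : G) (Φ : G → ℝ) : 𝔼 b, (Fintype.card G : ℝ) * ind (b = a) * Φ b = Φ a := by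
  have hc : (0 : ℝ) < Fintype.card G := by exact_mod_cast Fintype.card_pos
  rw [ex_eq_sum, Finset.sum_eq_single a (fun b _ hb => by rw [ind_of_not hb]; ring) (by simp),
    ind_of rfl]
  field_simp

theorem gaA_update (i : Fin L) (a : G) (F : (Fin L → G) → ℝ) :
    𝔼 γ, F (Function.update γ i a) = 𝔼 γ, (Fintype.card G : ℝ) * ind (γ i = a) * F γ := by
  have hinv : Function.Involutive fun p : (Fin L → G) × G =>
      (Function.update p.1 i p.2, p.1 i) := by
    intro p
    simp
  have h1 := ex_equiv hinv.toPerm fun p => (Fintype.card G : ℝ) * ind (p.1 i = a) * F p.1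
  rw [ex_prod, ex_prod] at h1
  simp only [ex_const, Function.Involutive.coe_toPerm, Function.update_self] at h1
  rw [← h1]
  exact expect_congr rfl fun γ _ => (gaA_point a fun b => F (Function.update γ i b)).symm

theorem gaA_base (i : Fin L) (a : G) (F : (Fin L → G) → ℝ) :
    (𝔼 γ, F (Function.update γ i a)) ^ 2 ≤ Fintype.card G * 𝔼 γ, F γ ^ 2 := by
  refine (ex_sq_le _).trans ?_
  rw [gaA_update i a fun γ => F γ ^ 2, mul_expect]
  refine ex_mono fun γ => mul_le_mul_of_nonneg_right ?_ (sq_nonneg _)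
  exact mul_le_of_le_one_right (Nat.cast_nonneg _) (ind_le_one _)

theorem gaA_diff (a b : G) (F : (Fin L → G) → ℝ) :
    ∑ i, (𝔼 γ, F (Function.update γ i a) - 𝔼 γ, F (Function.update γ i b)) ^ 2 ≤
      2 * Fintype.card G * 𝔼 γ, F γ ^ 2 := by
  have hc : (0 : ℝ) < Fintype.card G := by exact_mod_cast Fintype.card_pos
  have hN : (0 : ℝ) < Fintype.card (Fin L → G) := by exact_mod_cast Fintype.card_pos
  by_cases hab : a = b
  · subst hab
    simp only [sub_self, ne_eq, OfNat.ofNat_ne_zero, not_false_eq_true, zero_pow, sum_const_zero]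
    exact mul_nonneg (by positivity) (ex_nonneg fun γ => sq_nonneg _)
  set e : Fin L → (Fin L → G) → ℝ := fun i γ =>
    (Fintype.card G : ℝ) * (ind (γ i = a) - ind (γ i = b)) / Fintype.card (Fin L → G) with he
  have h1 : ∀ (i : Fin L) (Φ : (Fin L → G) → ℝ), ∑ γ, e i γ * Φ γ =
      𝔼 γ, Φ (Function.update γ i a) - 𝔼 γ, Φ (Function.update γ i b) := by
    intro i Φ
    rw [gaA_update, gaA_update, ← expect_sub_distrib, ex_eq_sum, sum_div]
    exact sum_congr rfl fun γ _ => by simp only [he]; ring
  have h2 := H91S.bessel e (2 * Fintype.card G / Fintype.card (Fin L → G)) (by positivity)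
    (fun i j => by
      rw [h1]
      split_ifs with hij
      · subst hij
        simp only [he, Function.update_self, ex_const, ind_of trivial, ind_of_not hab,
          ind_of_not (Ne.symm hab)]
        ring
      · simp only [he, Function.update_of_ne (Ne.symm hij), sub_self]) F
  simp only [h1] at h2
  refine h2.trans_eq ?_
  rw [ex_eq_sum]
  ring

end Prod

theorem gaA_bar0 (p : Fin 10) : bar (fun _ => false) p = false := by
  revert p
  decide

theorem gaA_col {L : ℕ} {s : Fin 8 → Bool} {θ : Equiv.Perm (Fin 10)} {g : Fin 5 → Bool}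
    (h : ∀ p, bar s p = g (half (θ p))) (i : Fin L) (w : Fin L → Equiv.Perm (Fin 10))
    (γ : GG L) :
    col (i, w) s γ = rf (Function.update w i (θ * w i), Function.update γ i g) := by
  funext j v
  by_cases hj : j = i
  · subst hj
    simp [col, rf, h]
  · simp [col, rf, hj]

/-- Relabelling one copy. -/
def gaA_rel {L : ℕ} (θ : Equiv.Perm (Fin 10)) (i : Fin L) :
    (Fin L → Equiv.Perm (Fin 10)) ≃ (Fin L → Equiv.Perm (Fin 10)) where
  toFun w := Function.update w i (θ * w i)
  invFun w := Function.update w i (θ⁻¹ * w i)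
  left_inv w := by simp
  right_inv w := by simp

theorem gad_mix (L : ℕ) (hL : 0 < L) :
    Mix (col (L := L)) (rf (L := L)) (fun _ => false) 32 (64 / L) := by
  have hG : (Fintype.card (Fin 5 → Bool) : ℝ) = 32 := by
    rw [Fintype.card_fun, Fintype.card_bool, Fintype.card_fin]
    norm_num
  have : Nonempty (Fin L) := ⟨⟨0, hL⟩⟩
  have h0 := fun θ : Equiv.Perm (Fin 10) =>
    gaA_col (L := L) (θ := θ) (g := fun _ => false) fun p => gaA_bar0 p
  refine ⟨fun h => ?_, fun c h => ?_⟩
  · rw [ex_prod, ex_prod, mul_expect]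
    refine ex_le fun i => ex_mono fun w => ?_
    have h1 := gaA_base i (fun _ => false : Fin 5 → Bool) fun γ => h (rf (w, γ))
    rw [hG] at h1
    simpa only [h0 1, one_mul, Function.update_eq_self] using h1
  · obtain ⟨θ, g, hg⟩ := bar_eq c
    have h1 : ∀ i : Fin L, 𝔼 w, (𝔼 γ, h (col (i, w) c γ) -
        𝔼 γ, h (col (i, w) (fun _ => false) γ)) ^ 2 =
        𝔼 w, (𝔼 γ, h (rf (w, Function.update γ i g)) -
          𝔼 γ, h (rf (w, Function.update γ i fun _ => false))) ^ 2 := by
      intro i
      rw [← ex_equiv (gaA_rel θ i) fun w => (𝔼 γ, h (rf (w, Function.update γ i g)) -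
          𝔼 γ, h (rf (w, Function.update γ i fun _ => false))) ^ 2]
      simp only [gaA_col hg, h0 θ]
      rfl
    rw [ex_prod, ex_prod, mul_expect]
    simp only [h1]
    rw [ex_comm]
    refine ex_mono fun w => ?_
    have h2 := gaA_diff (L := L) g (fun _ => false : Fin 5 → Bool) fun γ => h (rf (w, γ))
    rw [hG] at h2
    rw [ex_eq_sum, Fintype.card_fin]
    exact (div_le_div_of_nonneg_right h2 (Nat.cast_nonneg _)).trans_eq (by ring)

end Pool.Agent.Lib.MP_8a52c3_lc.PM
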