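import Pool.Agent.Lib.MP_8a52c3_lc.PM.Block

/-! Peeling of all units. -/

open Finset Matrix
open scoped BigOperators

namespace Pool.Agent.Lib.MP_8a52c3_lc.PM

open H91S (fro)
open Mono (ex_cons ex_comm ex_mono)

theorem lfA_fro {C ι : Type} [Fintype C] [Fintype ι] {n : ℕ}
    (A : Matrix ((Fin n → C) × (C × ι)) ((Fin n → C) × (C × ι)) ℝ) :
    fro (A.submatrix (fun p : (Fin (n + 1) → C) × ι => (Fin.tail p.1, (p.1 0, p.2)))
      fun p : (Fin (n + 1) → C) × ι => (Fin.tail p.1, (p.1 0, p.2))) = fro A := by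
  have se : ∀ F : (Fin n → C) × (C × ι) → ℝ,
      ∑ p : (Fin (n + 1) → C) × ι, F (Fin.tail p.1, (p.1 0, p.2)) = ∑ q, F q := by
    intro F
    rw [Fintype.sum_prod_type, H91S.sum_cons, Fintype.sum_prod_type, Finset.sum_comm]
    refine Finset.sum_congr rfl fun S _ => ?_
    rw [Fintype.sum_prod_type]
    simp only [Fin.cons_zero, Fin.tail_cons]
  unfold fro
  simp only [Matrix.submatrix_apply]
  rw [se (fun p => ∑ q : (Fin (n + 1) → C) × ι, A p (Fin.tail q.1, (q.1 0, q.2)) ^ 2)]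
  exact Finset.sum_congr rfl fun p _ => se (fun q => A p q ^ 2)

theorem lfA_cons {X Y : Type} {n : ℕ} (f : Fin (n + 1) → X → Y) (a : X) (g : Fin n → X) :
    (fun u => f u ((Fin.cons a g : Fin (n + 1) → X) u))
      = (Fin.cons (f 0 a) fun u => f u.succ (g u) : Fin (n + 1) → Y) := by
  funext u
  refine Fin.cases ?_ (fun u => ?_) u <;> simp

theorem lift {X C Γ Ω Y : Type} [Fintype X] [Fintype C] [DecidableEq C] [Fintype Γ] [Fintype Ω]
    (col : X → C → Γ → Y) (rf : Ω → Y) (c0 : C) (C0 ε : ℝ)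
    (hM : Mix col rf c0 C0 ε) (hC0 : 0 ≤ C0) (t : ℝ) (ht : 1 ≤ t)
    (hε : t ^ 4 * (Fintype.card C : ℝ) ^ 2 * ε ≤ 1) (k : ℕ) :
    ∀ (ι : Type) [Fintype ι] [DecidableEq ι] (A : (Fin k → Y) → Matrix ι ι ℝ),
      (∀ y, (A y).PosSemidef) →
      ∃ BB : (Fin k → X) → Matrix ((Fin k → Option C) × ι) ((Fin k → Option C) × ι) ℝ,
        (∀ x, (BB x).PosSemidef) ∧
        (∀ x (s : Fin k → C) i j,
          𝔼 γ : Fin k → Γ, A (fun u => col (x u) (s u) (γ u)) i j
            = ∑ ρ : Fin k → Option C, ∑ ρ' : Fin k → Option C,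
              (∏ u, uo t (s u) (ρ u)) * (∏ u, uo t (s u) (ρ' u)) * BB x (ρ, i) (ρ', j)) ∧
        𝔼 x, fro (BB x) ≤ (2 * C0 + 2) ^ k * 𝔼 ω : Fin k → Ω, fro (A fun u => rf (ω u)) := by
  induction k with
  | zero =>
    intro ι _ _ A hA
    have e : ∀ y, A y = A Fin.elim0 := fun y => congrArg A (Subsingleton.elim _ _)
    refine ⟨fun _ => (A Fin.elim0).submatrix Prod.snd Prod.snd, fun _ => (hA _).submatrix _,
      fun x s i j => ?_, ?_⟩
    · simp only [e, Mono.ex_const, Fintype.sum_unique, Finset.univ_eq_empty, Finset.prod_empty,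
        one_mul, Matrix.submatrix_apply]
    · simp only [e, Mono.ex_const, fro, Fintype.sum_prod_type, Fintype.sum_unique, pow_zero,
        one_mul, Matrix.submatrix_apply, le_refl]
  | succ n ih =>
    intro ι _ _ A hA
    choose B1 h1 h2 h3 using fun y' : Fin n → Y =>
      block col rf c0 C0 ε hM t ht hε (fun y0 => A (Fin.cons y0 y')) (fun y0 => hA _)
    choose B2 g1 g2 g3 using fun x0 : X =>
      ih (Option C × ι) (fun y' => B1 y' x0) (fun y' => h1 y' x0)
    refine ⟨fun x => (B2 (x 0) (Fin.tail x)).submatrix (fun p => (Fin.tail p.1, (p.1 0, p.2)))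
      fun p => (Fin.tail p.1, (p.1 0, p.2)), fun x => (g1 _ _).submatrix _, fun x s i j => ?_, ?_⟩
    · rw [ex_cons]
      simp only [lfA_cons fun u => col (x u) (s u), h2, expect_sum_comm, ← mul_expect]
      rw [H91S.sum_cons]
      refine Finset.sum_congr rfl fun β _ => ?_
      rw [Finset.sum_comm (s := (univ : Finset (Fin n → Option C))), H91S.sum_cons]
      refine Finset.sum_congr rfl fun β' _ => ?_
      have := g2 (x 0) (Fin.tail x) (Fin.tail s) (β, i) (β', j)
      simp only [Fin.tail] at this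
      rw [this, Finset.sum_comm, Finset.mul_sum]
      refine Finset.sum_congr rfl fun S' _ => ?_
      rw [Finset.mul_sum]
      refine Finset.sum_congr rfl fun S _ => ?_
      simp only [Fin.prod_univ_succ, Fin.cons_zero, Fin.cons_succ, Matrix.submatrix_apply,
        Fin.tail_cons]
      ring
    · simp only [lfA_fro]
      rw [ex_cons, ex_comm, ex_cons]
      simp only [Fin.cons_zero, Fin.tail_cons, lfA_cons fun _ => rf]
      calc _ ≤ _ := ex_mono g3
        _ = (2 * C0 + 2) ^ n * 𝔼 ω : Fin n → Ω, 𝔼 x0, fro (B1 (fun u => rf (ω u)) x0) := by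
            rw [← mul_expect, ex_comm]
        _ ≤ _ := mul_le_mul_of_nonneg_left (ex_mono fun ω => h3 _) (by positivity)
        _ = _ := by rw [← mul_expect, pow_succ, mul_assoc]

end Pool.Agent.Lib.MP_8a52c3_lc.PM
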