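import Pool.Agent.Lib.MP_8a52c3_lc.PM.Defs

/-! The matchings of the construction and their slack. -/

open Finset
open scoped BigOperators

namespace Pool.Agent.Lib.MP_8a52c3_lc.PM

open Mono

variable {k L d n : ℕ}

theorem maA_flp_flp : ∀ p, flp (flp p) = p := by decide

theorem maA_flp_ne : ∀ p, flp p ≠ p := by decide

theorem maA_half_flp : ∀ p, half (flp p) = half p := by decide

theorem maA_big : ∀ p : Fin 10, ¬ (p : ℕ) < 8 → p = 8 ∨ p = 9 := by decide

theorem maA_rl_inv (ϖ : Fin k → Fin L → Equiv.Perm (Fin 10)) (w : WV k L d) :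
    rl (fun u i => (ϖ u i)⁻¹) (rl ϖ w) = w := by
  rcases w with ⟨u, ⟨i, v⟩ | β⟩ | w <;> simp [rl]

theorem maA_inv_rl (ϖ : Fin k → Fin L → Equiv.Perm (Fin 10)) (w : WV k L d) :
    rl ϖ (rl (fun u i => (ϖ u i)⁻¹) w) = w := by
  rcases w with ⟨u, ⟨i, v⟩ | β⟩ | w <;> simp [rl]

theorem maA_port (pt : Fin k × Fin 8 → Fin k × Fin 8) (ι : Fin k → Fin L) (u : Fin k)
    (c : Fin 8) : (m0 pt ι (.inl (u, .inl (ι u, Fin.castLE (by norm_num) c))) : WV k L d) =
      .inl ((pt (u, c)).1, .inl (ι (pt (u, c)).1, Fin.castLE (by norm_num) (pt (u, c)).2)) := by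
  simp [m0]

theorem maA_m0_m0 (pt : Fin k × Fin 8 → Fin k × Fin 8) (hpt : ∀ p, pt (pt p) = p)
    (ι : Fin k → Fin L) (w : WV k L d) : m0 pt ι (m0 pt ι w) = w := by
  rcases w with ⟨u, ⟨i, p⟩ | β⟩ | ⟨j, β⟩
  · by_cases hi : i = ι u
    · subst hi
      by_cases hp : (p : ℕ) < 8
      · have e : p = Fin.castLE (by norm_num) (⟨p, hp⟩ : Fin 8) := rfl
        rw [e, maA_port, maA_port, Prod.mk.eta, hpt]
      · rcases maA_big p hp with rfl | rfl <;> simp [m0]
    · simp [m0, hi, maA_flp_flp]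
  · cases β <;> simp [m0]
  · simp [m0]

theorem maA_m0_ne (pt : Fin k × Fin 8 → Fin k × Fin 8) (hne : ∀ p, pt p ≠ p)
    (ι : Fin k → Fin L) (w : WV k L d) : m0 pt ι w ≠ w := by
  rcases w with ⟨u, ⟨i, p⟩ | β⟩ | ⟨j, β⟩
  · by_cases hi : i = ι u
    · subst hi
      by_cases hp : (p : ℕ) < 8
      · have e : p = Fin.castLE (by norm_num) (⟨p, hp⟩ : Fin 8) := rfl
        rw [e, maA_port]
        intro h
        simp only [Sum.inl.injEq, Prod.mk.injEq, Fin.castLE_inj] at h
        exact hne (u, ⟨p, hp⟩) (Prod.ext h.1 h.2.2)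
      · simp [m0, hp]
    · simp [m0, hi, maA_flp_ne]
  · simp [m0]
  · simp [m0]

/-- The colouring in terms of labels. -/
def maA_cc (b : Fin k → Bool) (ι : Fin k → Fin L) (s : Fin k → Fin 8 → Bool) (γ : Fin k → GG L) :
    WV k L d → Bool
  | .inl (u, .inl (i, p)) => if i = ι u then bar (s u) p else γ u i (half p)
  | .inl (u, .inr β) => β && b u
  | .inr _ => false

theorem maA_clr (b : Fin k → Bool) (x : Fin k → GX L) (s : Fin k → Fin 8 → Bool)
    (γ : Fin k → GG L) (w : WV k L d) : clr b (fun u => col (x u) (s u) (γ u)) w =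
      maA_cc b (fun u => (x u).1) s γ (rl (fun u => (x u).2) w) := by
  rcases w with ⟨u, ⟨i, v⟩ | β⟩ | w <;> rfl

theorem maA_card (ϖ : Fin k → Fin L → Equiv.Perm (Fin 10)) (P : WV k L d → Prop)
    [DecidablePred P] : (univ.filter fun w => P (rl ϖ w)).card = ∑ w, if P w then 1 else 0 := by
  rw [card_filter]
  exact (Function.bijective_iff_has_inverse.2 ⟨_, maA_rl_inv ϖ, maA_inv_rl ϖ⟩).sum_comp
    fun w => if P w then 1 else 0

theorem maA_bar_even (s : Fin 8 → Bool) : Even (∑ p, if bar s p = true then 1 else 0) := by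
  have e : ∀ c : Fin 8, bar s c.castSucc.castSucc = s c := fun c => by simp [bar]
  have e8 : bar s (Fin.last 8).castSucc =
      decide (Odd (univ.filter fun c => s c = true).card) := rfl
  have e9 : bar s (Fin.last 9) = false := rfl
  rw [Fin.sum_univ_castSucc, Fin.sum_univ_castSucc, e8, e9]
  simp only [e, ← card_filter]
  by_cases h : Odd (univ.filter fun c => s c = true).card
  · simp [h]
  · simpa [h] using Nat.not_odd_iff_even.1 h

theorem maA_half_even : ∀ g : Fin 5 → Bool, Even (∑ p, if g (half p) = true then 1 else 0) := by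
  decide

theorem maA_odd (b : Fin k → Bool) (hb : Odd (univ.filter fun u => b u = true).card)
    (ι : Fin k → Fin L) (s : Fin k → Fin 8 → Bool) (γ : Fin k → GG L) :
    Odd (∑ w : WV k L d, if maA_cc b ι s γ w = true then 1 else 0) := by
  rw [Fintype.sum_sum_type, Fintype.sum_prod_type]
  simp only [Fintype.sum_sum_type, Fintype.sum_prod_type, sum_add_distrib, maA_cc,
    Fintype.sum_bool, Bool.true_and, Bool.false_and, Bool.false_eq_true, if_false, add_zero,
    sum_const_zero]
  rw [card_filter] at hb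
  refine Even.add_odd (even_sum _ fun u _ => even_sum _ fun i _ => ?_) hb
  by_cases hi : i = ι u
  · simpa only [if_pos hi] using maA_bar_even (s u)
  · simpa only [if_neg hi] using maA_half_even (γ u i)

theorem maA_cut (pt : Fin k × Fin 8 → Fin k × Fin 8) (b : Fin k → Bool) (ι : Fin k → Fin L)
    (s : Fin k → Fin 8 → Bool) (hs : ∀ p, s (pt p).1 (pt p).2 = s p.1 p.2) (γ : Fin k → GG L) :
    (∑ w : WV k L d, if maA_cc b ι s γ w ≠ maA_cc b ι s γ (m0 pt ι w) then 1 else 0) =
      2 * ∑ u, if bar (s u) 8 ≠ b u then 1 else 0 := by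
  have e1 : ∀ u i p, (maA_cc b ι s γ (.inl (u, .inl (i, p)) : WV k L d) ≠
      maA_cc b ι s γ (m0 pt ι (.inl (u, .inl (i, p)) : WV k L d))) ↔
        i = ι u ∧ p = 8 ∧ bar (s u) 8 ≠ b u := fun u i p => by
    by_cases hi : i = ι u
    · subst hi
      by_cases hp : (p : ℕ) < 8
      · have e : p = Fin.castLE (by norm_num) (⟨p, hp⟩ : Fin 8) := rfl
        have e8 : p ≠ 8 := fun h => by simp [h] at hp
        simp only [e8, false_and, and_false, iff_false, not_not]
        rw [e, maA_port]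
        simpa [maA_cc, bar, hp] using (hs (u, ⟨p, hp⟩)).symm
      · rcases maA_big p hp with rfl | rfl <;> simp [m0, maA_cc, bar]
    · simp [m0, maA_cc, hi, maA_half_flp]
  have e2 : ∀ u β, (maA_cc b ι s γ (.inl (u, .inr β) : WV k L d) ≠
      maA_cc b ι s γ (m0 pt ι (.inl (u, .inr β) : WV k L d))) ↔
        β = true ∧ bar (s u) 8 ≠ b u := fun u β => by
    cases β
    · simp [m0, maA_cc, bar]
    · simp [m0, maA_cc, eq_comm]
  have e3 : ∀ w, maA_cc b ι s γ (.inr w : WV k L d) = maA_cc b ι s γ (m0 pt ι (.inr w : WV k L d)) :=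
    fun _ => rfl
  rw [Fintype.sum_sum_type, Fintype.sum_prod_type, mul_sum]
  simp only [Fintype.sum_sum_type, Fintype.sum_prod_type, e1, e2, ← e3, ne_eq, not_true, if_false,
    sum_const_zero, add_zero, ite_and, sum_ite_eq', mem_univ, if_true, two_mul]
  refine sum_congr rfl fun u _ => ?_
  congr 1
  rw [sum_comm]
  simp only [sum_ite_eq', mem_univ, if_true]

theorem mt_mt (pt : Fin k × Fin 8 → Fin k × Fin 8) (hpt : ∀ p, pt (pt p) = p)
    (x : Fin k → GX L) (w : WV k L d) : mt pt x (mt pt x w) = w := by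
  rw [mt, mt, maA_inv_rl fun u => (x u).2, maA_m0_m0 pt hpt, maA_rl_inv fun u => (x u).2]

theorem mt_ne (pt : Fin k × Fin 8 → Fin k × Fin 8) (hne : ∀ p, pt p ≠ p)
    (x : Fin k → GX L) (w : WV k L d) : mt pt x w ≠ w := by
  intro h
  have := congrArg (rl fun u => (x u).2) h
  rw [mt, maA_inv_rl fun u => (x u).2] at this
  exact maA_m0_ne pt hne _ _ this

theorem slk_col (pt : Fin k × Fin 8 → Fin k × Fin 8) (S : Fin k → Fin 8 → Fin n)
    (b : Fin k → Bool) (hS : ∀ p, S (pt p).1 (pt p).2 = S p.1 p.2)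
    (hb : Odd (univ.filter fun u => b u = true).card) (x : Fin k → GX L) (z : Fin n → Bool)
    (γ : Fin k → GG L) :
    slk (mt pt x : WV k L d → WV k L d)
        (clr b fun u => col (x u) (fun c => z (S u c)) (γ u))
      = ∑ u, ind (Viol S b u z) - 1 := by
  have e1 := maA_card (d := d) (fun u => (x u).2) fun w =>
    maA_cc b (fun u => (x u).1) (fun u c => z (S u c)) γ w ≠
      maA_cc b (fun u => (x u).1) (fun u c => z (S u c)) γ (m0 pt (fun u => (x u).1) w)
  have e2 := maA_card (d := d) (fun u => (x u).2) fun w =>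
    maA_cc b (fun u => (x u).1) (fun u c => z (S u c)) γ w = true
  rw [maA_cut pt b _ _ fun p => congrArg z (hS p)] at e1
  simp only [slk, maA_clr b x (fun u c => z (S u c)), mt, maA_inv_rl fun u => (x u).2]
  rw [e1, e2, ind_of (maA_odd b hb _ _ γ)]
  push_cast
  rw [mul_div_cancel_left₀ _ two_ne_zero]
  congr 1
  refine sum_congr rfl fun u _ => ?_
  have e8 : bar (fun c => z (S u c)) 8 =
      decide (Odd (univ.filter fun c => z (S u c) = true).card) := rfl
  rw [e8]
  split_ifs with h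
  · refine (ind_of fun h' => h ?_).symm
    cases hu : b u <;> simp_all
  · refine (ind_of_not fun h' => h' ?_).symm
    rw [← not_not.1 h, decide_eq_true_iff]

end Pool.Agent.Lib.MP_8a52c3_lc.PM
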