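import Pool.Agent.Lib.MP_8a52c3_lc.PM.Defs
import Pool.Agent.Lib.MP_8a52c3_lc.H91SE

/-! From a semidefinite lift of the perfect matching polytope to its slack matrix. -/

open Finset
open scoped BigOperators

namespace Pool.Agent.Lib.MP_8a52c3_lc.PM

/-- Symmetric coordinate of a vector indexed by ordered pairs. -/
def poA_coord {N : ℕ} (u v : Fin N) : ({p : Fin N × Fin N // p.1 < p.2} → ℝ) →ₗ[ℝ] ℝ :=
  if h : u < v then LinearMap.proj ⟨(u, v), h⟩
  else if h' : v < u then LinearMap.proj ⟨(v, u), h'⟩ else 0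

lemma poA_coord_eq {N : ℕ} {μ : Fin N → Fin N} (h1 : ∀ i, μ (μ i) = i) (h2 : ∀ i, μ i ≠ i)
    (u v : Fin N) :
    poA_coord u v (fun p => if μ p.1.1 = p.1.2 then (1 : ℝ) else 0) = if μ u = v then 1 else 0 := by
  unfold poA_coord
  split_ifs with h h' h' h'' h''
  · simp [h']
  · simp [h']
  · simp [← h'', h1]
  · have : μ v ≠ u := fun e => h'' (by rw [← e, h1])
    simp [this]
  · exact absurd (h''.trans (le_antisymm (not_lt.mp h) (not_lt.mp h'))) (h2 u)
  · simp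

/-- The odd set inequality of a colouring. -/
noncomputable def poA_odd {N : ℕ} (c : Fin N → Bool) :
    ({p : Fin N × Fin N // p.1 < p.2} → ℝ) →ᵃ[ℝ] ℝ :=
  ((2 : ℝ)⁻¹ • ∑ u, ∑ v, (if c u ≠ c v then (1 : ℝ) else 0) • poA_coord u v).toAffineMap
    - AffineMap.const ℝ _ (Mono.ind (Odd (univ.filter fun w => c w = true).card))

lemma poA_odd_eq {N : ℕ} {μ : Fin N → Fin N} (h1 : ∀ i, μ (μ i) = i) (h2 : ∀ i, μ i ≠ i)
    (c : Fin N → Bool) :
    poA_odd c (fun p => if μ p.1.1 = p.1.2 then (1 : ℝ) else 0) = slk μ c := by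
  simp only [poA_odd, slk, AffineMap.coe_sub, Pi.sub_apply, AffineMap.const_apply,
    LinearMap.coe_toAffineMap, LinearMap.smul_apply, LinearMap.sum_apply, poA_coord_eq h1 h2,
    smul_eq_mul, mul_ite, mul_one, mul_zero, Finset.sum_ite_eq, Finset.mem_univ, if_true,
    Finset.sum_boole]
  ring

lemma poA_nonneg {W : Type} [Fintype W] {μ : W → W} (h1 : ∀ i, μ (μ i) = i) (h2 : ∀ i, μ i ≠ i)
    (c : W → Bool) : 0 ≤ slk μ c := by
  classical
  unfold slk
  by_cases h : ∃ w, c w ≠ c (μ w)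
  · obtain ⟨w, hw⟩ := h
    have h3 : 1 < (univ.filter fun w => c w ≠ c (μ w)).card :=
      Finset.one_lt_card.2 ⟨w, by simpa using hw, μ w, by simpa [h1] using hw.symm, (h2 w).symm⟩
    have h4 : (2 : ℝ) ≤ (univ.filter fun w => c w ≠ c (μ w)).card := by exact_mod_cast h3
    have h5 := Mono.ind_le_one (Odd (univ.filter fun w => c w = true).card)
    linarith
  · have h3 : ∀ w, c w = c (μ w) := fun w => by_contra fun e => h ⟨w, e⟩
    have h4 : ∑ _w ∈ univ.filter fun w => c w = true, (1 : ZMod 2) = 0 :=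
      Finset.sum_involution (fun w _ => μ w) (fun _ _ => by decide) (fun w _ _ => h2 w)
        (fun w hw => by simpa [← h3 w] using hw) fun w _ => h1 w
    rw [Finset.sum_const, nsmul_eq_mul, mul_one, ZMod.natCast_eq_zero_iff_even] at h4
    rw [Mono.ind_of_not (Nat.not_odd_iff_even.2 h4), sub_zero]
    exact div_nonneg (Nat.cast_nonneg _) zero_le_two

lemma poA_equiv {W W' : Type} [Fintype W] [Fintype W'] (η : W ≃ W') (μ : W → W) (c : W → Bool) :
    slk (fun i => η (μ (η.symm i))) (fun i => c (η.symm i)) = slk μ c := by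
  have h1 : (univ.filter fun i => c (η.symm i) ≠ c (η.symm (η (μ (η.symm i))))).card =
      (univ.filter fun w => c w ≠ c (μ w)).card :=
    Finset.card_equiv η.symm (by simp)
  have h2 : (univ.filter fun i => c (η.symm i) = true).card =
      (univ.filter fun w => c w = true).card :=
    Finset.card_equiv η.symm (by simp)
  unfold slk
  rw [h1, h2]

theorem poly {N m : ℕ} {V : Type} [AddCommGroup V] [Module ℝ V]
    (M : V →ᵃ[ℝ] Matrix (Fin m) (Fin m) ℝ)
    (π : V →ᵃ[ℝ] ({p : Fin N × Fin N // p.1 < p.2} → ℝ))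
    (h : π '' {w | (M w).PosSemidef} = convexHull ℝ
      {ξ | ∃ μ : Fin N → Fin N, (∀ i, μ (μ i) = i) ∧ (∀ i, μ i ≠ i) ∧
        ξ = fun p : {p : Fin N × Fin N // p.1 < p.2} => if μ p.1.1 = p.1.2 then (1 : ℝ) else 0})
    {W X Y : Type} [Fintype W] [Fintype X] (η : W ≃ Fin N) (μ : X → W → W)
    (h1 : ∀ x w, μ x (μ x w) = w) (h2 : ∀ x w, μ x w ≠ w) (c : Y → W → Bool) :
    ∃ Z : X → Matrix (Fin m) (Fin m) ℝ, (∀ x, (Z x).PosSemidef) ∧
      ∀ (y : Y) (a : X → ℝ), 0 < ∑ x, a x → (∑ x, a x • Z x).PosSemidef →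
        0 ≤ ∑ x, a x * slk (μ x) (c y) := by
  have k1 : ∀ x i, η (μ x (η.symm (η (μ x (η.symm i))))) = i := fun x i => by simp [h1]
  have k2 : ∀ x i, η (μ x (η.symm i)) ≠ i := fun x i e =>
    h2 x (η.symm i) (η.eq_symm_apply.2 e)
  have hw : ∀ x, ∃ w : V, (M w).PosSemidef ∧ π w = fun p =>
      if η (μ x (η.symm p.1.1)) = p.1.2 then (1 : ℝ) else 0 := by
    intro x
    have : (fun p : {p : Fin N × Fin N // p.1 < p.2} =>
        if η (μ x (η.symm p.1.1)) = p.1.2 then (1 : ℝ) else 0) ∈ π '' {w | (M w).PosSemidef} := by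
      rw [h]
      exact subset_convexHull ℝ _ ⟨fun i => η (μ x (η.symm i)), k1 x, k2 x, rfl⟩
    obtain ⟨w, a1, a2⟩ := this
    exact ⟨w, a1, a2⟩
  choose w w1 w2 using hw
  refine ⟨fun x => M (w x), w1, fun y a ha hp => ?_⟩
  have := H91S.star_of_lift M π (poA_odd fun i => c y (η.symm i)) ?_ w a ha hp
  · refine this.trans_eq (Finset.sum_congr rfl fun x _ => ?_)
    rw [w2, poA_odd_eq (μ := fun i => η (μ x (η.symm i))) (k1 x) (k2 x), poA_equiv]
  · intro v hv
    have hm : π v ∈ π '' {w | (M w).PosSemidef} := ⟨v, hv, rfl⟩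
    rw [h] at hm
    have hc : Convex ℝ ((poA_odd fun i => c y (η.symm i)) ⁻¹' Set.Ici (0 : ℝ)) :=
      (convex_Ici 0).affine_preimage _
    refine convexHull_min ?_ hc hm
    rintro _ ⟨ν, a1, a2, rfl⟩
    rw [Set.mem_preimage, Set.mem_Ici, poA_odd_eq a1 a2]
    exact poA_nonneg a1 a2 _

end Pool.Agent.Lib.MP_8a52c3_lc.PM
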