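import Pool.Agent.Lib.MP_8a52c3_lc.PM.Defs
import Pool.Agent.Lib.MP_8a52c3_lc.Mono.Pseudo

/-! The pseudo-density of an expanding parity system is nonnegative on low degree squares. -/

open Finset
open scoped BigOperators

namespace Pool.Agent.Lib.MP_8a52c3_lc.PM

open Mono

theorem soA_psd {ι : Type} [Fintype ι] (a : ι → ι → ℝ) (h1 : ∀ i, a i i = 1)
    (hs : ∀ i j, a i j = a j i) (ht : ∀ i j l, a i j ≠ 0 → a j l ≠ 0 → a i l = a i j * a j l)
    (p : ι → ℝ) : 0 ≤ ∑ i, ∑ l, p i * p l * a i l := by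
  set N : ι → ℝ := fun j => ∑ m, a j m ^ 2 with hN
  have hpos : ∀ j, 0 < N j := fun j =>
    lt_of_lt_of_le (by rw [h1]; norm_num)
      (single_le_sum (f := fun m => a j m ^ 2) (fun m _ => sq_nonneg _) (mem_univ j))
  have hNe : ∀ i j, a i j ≠ 0 → N j = N i := by
    intro i j hij
    have hji : a j i ≠ 0 := by rwa [hs]
    have hsq : a i j * a i j = 1 := by
      have := ht i j i hij hji
      rw [h1, hs j i] at this
      exact this.symm
    refine sum_congr rfl fun m _ => ?_
    by_cases hm : a j m = 0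
    · by_cases hm' : a i m = 0
      · rw [hm, hm']
      · exact absurd (hm.symm.trans (ht j i m hji hm')).symm (mul_ne_zero hji hm')
    · rw [ht i j m hij hm, mul_pow, sq (a i j), hsq, one_mul]
  have key : ∀ i l, a i l = ∑ j, a i j * a l j / N j := by
    intro i l
    have : ∀ j, a i j * a l j / N j = a i l / N i * a i j ^ 2 := by
      intro j
      by_cases hij : a i j = 0
      · simp [hij]
      · rw [hNe i j hij]
        have e : a l j = a i l * a i j := by
          by_cases hil : a i l = 0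
          · by_contra hne
            rw [hil, zero_mul] at hne
            have hjl : a j l ≠ 0 := by rwa [hs]
            exact mul_ne_zero hij hjl ((ht i j l hij hjl).symm.trans hil)
          · rw [ht l i j (by rwa [hs]) hij, hs l i]
        rw [e]
        ring
    simp only [this]
    rw [← mul_sum]
    exact (div_mul_cancel₀ _ (hpos i).ne').symm
  have e : ∑ i, ∑ l, p i * p l * a i l = ∑ j, (∑ i, p i * a i j) ^ 2 / N j := by
    calc ∑ i, ∑ l, p i * p l * a i l
        = ∑ i, ∑ l, ∑ j, p i * a i j * (p l * a l j) / N j := by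
          refine sum_congr rfl fun i _ => sum_congr rfl fun l _ => ?_
          rw [key i l, mul_sum]
          exact sum_congr rfl fun j _ => by ring
      _ = ∑ i, ∑ j, ∑ l, p i * a i j * (p l * a l j) / N j :=
          sum_congr rfl fun i _ => sum_comm
      _ = ∑ j, ∑ i, ∑ l, p i * a i j * (p l * a l j) / N j := sum_comm
      _ = _ := by
          refine sum_congr rfl fun j _ => ?_
          rw [sq, sum_mul_sum, sum_div]
          exact sum_congr rfl fun i _ => by rw [sum_div]
  rw [e]
  exact sum_nonneg fun j _ => div_nonneg (sq_nonneg _) (hpos j).le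

/-- A character of the cube. -/
def soA_chi {n : ℕ} (J : Finset (Fin n)) : (Fin n → Bool) → ℝ := fun z => ∏ j ∈ J, psChi (z j)

theorem soA_chi_mul {n : ℕ} (J J' : Finset (Fin n)) (z : Fin n → Bool) :
    soA_chi J z * soA_chi J' z = soA_chi (symmDiff J J') z :=
  psA_prod_symm _ (fun j => psChi_mul_self (z j)) J J'

theorem soA_ex_chi {n : ℕ} (J : Finset (Fin n)) :
    𝔼 z, soA_chi J z = if J = ∅ then 1 else 0 := by
  split_ifs with h
  · subst h
    simp [soA_chi]
  · obtain ⟨j, hj⟩ := nonempty_iff_ne_empty.2 h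
    have h0 := psA_ex_free (fun _ => none) J j hj rfl
    have h1 : ∀ z : Fin n → Bool, ind (Agr (fun _ => none) z) = 1 := fun z =>
      ind_of fun j c hc => by simp at hc
    simpa only [h1, mul_one, soA_chi] using h0

/-- Functions of degree at most `D`. -/
def soA_Low (n D : ℕ) : Submodule ℝ ((Fin n → Bool) → ℝ) :=
  Submodule.span ℝ (Set.range fun J : {J : Finset (Fin n) // J.card ≤ D} => soA_chi J.1)

theorem soA_chi_mem {n D : ℕ} {J : Finset (Fin n)} (h : J.card ≤ D) : soA_chi J ∈ soA_Low n D :=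
  Submodule.subset_span ⟨⟨J, h⟩, rfl⟩

theorem soA_mono {n D D' : ℕ} (h : D ≤ D') : soA_Low n D ≤ soA_Low n D' :=
  Submodule.span_le.2 (by
    rintro _ ⟨J, rfl⟩
    exact soA_chi_mem (J.2.trans h))

theorem soA_mul {n D D' : ℕ} {f g : (Fin n → Bool) → ℝ} (hf : f ∈ soA_Low n D)
    (hg : g ∈ soA_Low n D') : f * g ∈ soA_Low n (D + D') := by
  induction hf using Submodule.span_induction with
  | mem x hx =>
    obtain ⟨J, rfl⟩ := hx
    induction hg using Submodule.span_induction with
    | mem y hy =>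
      obtain ⟨J', rfl⟩ := hy
      have : soA_chi J.1 * soA_chi J'.1 = soA_chi (symmDiff J.1 J'.1) :=
        funext fun z => soA_chi_mul _ _ z
      rw [this]
      exact soA_chi_mem ((psA_card_symm _ _).trans (add_le_add J.2 J'.2))
    | zero => simp
    | add y y' _ _ h h' => rw [mul_add]; exact add_mem h h'
    | smul c y _ h => rw [mul_smul_comm]; exact Submodule.smul_mem _ c h
  | zero => simp
  | add x x' _ _ h h' => rw [add_mul]; exact add_mem h h'
  | smul c x _ h => rw [smul_mul_assoc]; exact Submodule.smul_mem _ c h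

theorem soA_one (n : ℕ) : (1 : (Fin n → Bool) → ℝ) ∈ soA_Low n 0 := by
  have : (1 : (Fin n → Bool) → ℝ) = soA_chi ∅ := funext fun z => by simp [soA_chi]
  rw [this]
  exact soA_chi_mem (by simp)

theorem soA_prod {n : ℕ} {κ : Type} (s : Finset κ) (f : κ → (Fin n → Bool) → ℝ) (d : κ → ℕ)
    (h : ∀ i, f i ∈ soA_Low n (d i)) : ∏ i ∈ s, f i ∈ soA_Low n (∑ i ∈ s, d i) := by
  classical
  induction s using Finset.induction_on with
  | empty => simpa using soA_one n
  | insert i s hi ih =>
    rw [prod_insert hi, sum_insert hi]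
    exact soA_mul (h i) ih

theorem soA_bit {n : ℕ} (j : Fin n) (h : Bool → ℝ) :
    (fun z : Fin n → Bool => h (z j)) ∈ soA_Low n 1 := by
  have : (fun z : Fin n → Bool => h (z j)) =
      ((h false + h true) / 2) • soA_chi ∅ + ((h false - h true) / 2) • soA_chi {j} := by
    funext z
    cases hz : z j <;> simp [soA_chi, psChi, hz] <;> ring
  rw [this]
  exact add_mem (Submodule.smul_mem _ _ (soA_chi_mem (by simp)))
    (Submodule.smul_mem _ _ (soA_chi_mem (by simp)))

theorem soA_ag {k n : ℕ} (S : Fin k → Fin 8 → Fin n) (ρ : Fin k → Option (Fin 8 → Bool)) :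
    (fun z : Fin n → Bool => ag ρ (fun u c => z (S u c))) ∈ soA_Low n (8 * wo ρ) := by
  have e : (fun z : Fin n → Bool => ag ρ (fun u c => z (S u c))) =
      ∏ u, fun z : Fin n → Bool => uo 1 (fun c => z (S u c)) (ρ u) := by
    funext z
    rw [Finset.prod_apply]
    rfl
  have e2 : 8 * wo ρ = ∑ u, if (ρ u).isSome = true then 8 else 0 := by
    rw [← sum_filter, sum_const, wo, smul_eq_mul, mul_comm]
  rw [e, e2]
  refine soA_prod _ _ _ fun u => ?_
  rcases ρ u with _ | a
  · exact soA_one n
  · have e3 : (fun z : Fin n → Bool => uo 1 (fun c => z (S u c)) (some a)) =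
        ∏ c, fun z : Fin n → Bool => (fun β => if β = a c then (1 : ℝ) else 0) (z (S u c)) := by
      funext z
      rw [Finset.prod_apply]
      simp only [uo, inv_one]
      rw [Finset.prod_ite_zero]
      simp [funext_iff]
    rw [e3]
    have := soA_prod univ (fun (c : Fin 8) (z : Fin n → Bool) =>
      (fun β => if β = a c then (1 : ℝ) else 0) (z (S u c))) (fun _ => 1)
      fun c => soA_bit (S u c) fun β => if β = a c then (1 : ℝ) else 0
    simpa using this

section Moments

variable {k n : ℕ} (S : Fin k → Fin 8 → Fin n) (b : Fin k → Bool) (R : ℕ)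

/-- The moments of the pseudo-density. -/
noncomputable def soA_mom (J : Finset (Fin n)) : ℝ := 𝔼 z, psSig S b R z * soA_chi J z

theorem soA_mom_eq (J : Finset (Fin n)) : soA_mom S b R J =
    ∑ T ∈ univ.filter (fun T : Finset (Fin k) => T.card ≤ R),
      if bdry S T = J then ∏ e ∈ T, psChi (b e) else 0 := by
  simp only [soA_mom, psSig, sum_mul]
  rw [expect_sum_comm]
  refine sum_congr rfl fun T _ => ?_
  have : ∀ z, psG S b T z * soA_chi J z =
      (∏ e ∈ T, psChi (b e)) * soA_chi (symmDiff (bdry S T) J) z := fun z => by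
    rw [psG_eq, ← soA_chi_mul, mul_assoc]
    rfl
  simp only [this]
  rw [← mul_expect, soA_ex_chi]
  by_cases h : bdry S T = J
  · simp [h]
  · have h' : ¬ symmDiff (bdry S T) J = ∅ := fun h' => h (symmDiff_eq_bot.1 h')
    rw [if_neg h, if_neg h', mul_zero]

theorem soA_bdry_symm (T T' : Finset (Fin k)) :
    bdry S (symmDiff T T') = symmDiff (bdry S T) (bdry S T') := by
  ext j
  rw [psA_mem_bdry, Finset.mem_symmDiff]
  tauto

variable (hexp : ∀ T : Finset (Fin k), T.card ≤ 2 * R → T.card ≤ 8 * (bdry S T).card)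
include hexp

theorem soA_mom_of {T : Finset (Fin k)} (hT : T.card ≤ R) :
    soA_mom S b R (bdry S T) = ∏ e ∈ T, psChi (b e) := by
  rw [soA_mom_eq, sum_eq_single T]
  · simp
  · intro T' hT' hne
    refine if_neg fun h => hne ?_
    have h1 := psA_card_symm T' T
    have h2 := (mem_filter.1 hT').2
    have h3 := hexp (symmDiff T' T) (by omega)
    rw [soA_bdry_symm, h, symmDiff_self] at h3
    exact symmDiff_eq_bot.1 (card_eq_zero.1 (by simpa using h3))
  · intro h
    exact (h (mem_filter.2 ⟨mem_univ _, hT⟩)).elim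

theorem soA_mom_ne {J : Finset (Fin n)} (h : soA_mom S b R J ≠ 0) :
    ∃ T : Finset (Fin k), T.card ≤ R ∧ T.card ≤ 8 * J.card ∧ bdry S T = J := by
  rw [soA_mom_eq] at h
  obtain ⟨T, hT, h⟩ := exists_ne_zero_of_sum_ne_zero h
  have h2 := (mem_filter.1 hT).2
  have h3 : bdry S T = J := by
    by_contra hne
    exact h (if_neg hne)
  exact ⟨T, h2, h3 ▸ hexp T (by omega), h3⟩

theorem soA_mom_mul {J J' : Finset (Fin n)} (hc : 8 * J.card + 8 * J'.card ≤ R)
    (h : soA_mom S b R J ≠ 0) (h' : soA_mom S b R J' ≠ 0) :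
    soA_mom S b R (symmDiff J J') = soA_mom S b R J * soA_mom S b R J' := by
  obtain ⟨T, hT, hT2, rfl⟩ := soA_mom_ne S b R hexp h
  obtain ⟨T', hT', hT2', rfl⟩ := soA_mom_ne S b R hexp h'
  have h1 := psA_card_symm T T'
  rw [← soA_bdry_symm, soA_mom_of S b R hexp hT, soA_mom_of S b R hexp hT',
    soA_mom_of S b R hexp (by omega), psA_prod_symm _ fun e => psChi_mul_self (b e)]

end Moments

theorem sos {k n : ℕ} (S : Fin k → Fin 8 → Fin n) (b : Fin k → Bool) (R r : ℕ)
    (hexp : ∀ T : Finset (Fin k), T.card ≤ 2 * R → T.card ≤ 8 * (bdry S T).card)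
    (hr : 256 * r ≤ R) (p : (Fin k → Option (Fin 8 → Bool)) → ℝ)
    (hp : ∀ ρ, r < wo ρ → p ρ = 0) :
    0 ≤ 𝔼 z, psSig S b R z * (∑ ρ, p ρ * ag ρ (fun u c => z (S u c))) ^ 2 := by
  have hmem : (∑ ρ, p ρ • fun z : Fin n → Bool => ag ρ (fun u c => z (S u c))) ∈
      soA_Low n (8 * r) := by
    refine Submodule.sum_mem _ fun ρ _ => ?_
    by_cases h : r < wo ρ
    · rw [hp ρ h, zero_smul]
      exact Submodule.zero_mem _
    · exact Submodule.smul_mem _ _ (soA_mono (by omega) (soA_ag S ρ))
  obtain ⟨c, hc⟩ := (Submodule.mem_span_range_iff_exists_fun ℝ).1 hmem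
  have e : ∀ z, psSig S b R z * (∑ ρ, p ρ * ag ρ (fun u c => z (S u c))) ^ 2 =
      ∑ J, ∑ J', c J * c J' * (psSig S b R z * soA_chi (symmDiff J.1 J'.1) z) := by
    intro z
    have h1 := congrFun hc z
    simp only [Finset.sum_apply, Pi.smul_apply, smul_eq_mul] at h1
    rw [← h1, sq, sum_mul_sum, mul_sum]
    refine sum_congr rfl fun J _ => ?_
    rw [mul_sum]
    refine sum_congr rfl fun J' _ => ?_
    rw [← soA_chi_mul]
    ring
  simp only [e]
  rw [expect_sum_comm]
  simp only [expect_sum_comm, ← mul_expect]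
  refine soA_psd (fun J J' : {J : Finset (Fin n) // J.card ≤ 8 * r} =>
    soA_mom S b R (symmDiff J.1 J'.1)) (fun J => ?_) (fun J J' => by rw [symmDiff_comm])
    (fun J J' J'' h h' => ?_) c
  · have := soA_mom_of S b R hexp (T := ∅) (by simp)
    simpa [bdry] using this
  · have h1 := psA_card_symm J.1 J'.1
    have h2 := psA_card_symm J'.1 J''.1
    have := J.2
    have := J'.2
    have := J''.2
    rw [← soA_mom_mul S b R hexp (by omega) h h', symmDiff_assoc, symmDiff_symmDiff_cancel_left]

end Pool.Agent.Lib.MP_8a52c3_lc.PM
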