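import Pool.Agent.Lib.MP_8a52c3_lc.PM.Core
import Pool.Agent.Lib.MP_8a52c3_lc.PM.Fact
import Pool.Agent.Lib.MP_8a52c3_lc.PM.Sos
import Pool.Agent.Lib.MP_8a52c3_lc.PM.Gad
import Pool.Agent.Lib.MP_8a52c3_lc.PM.Match
import Pool.Agent.Lib.MP_8a52c3_lc.PM.Poly
import Pool.Agent.Lib.MP_8a52c3_lc.Mono.Tseitin

/-! The semidefinite extension complexity of the perfect matching polytope is exponential. -/

open Finset
open scoped BigOperators

namespace Pool.Agent.Lib.MP_8a52c3_lc.PM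

open Mono

/-- The other end of a port of the Margulis graph. -/
noncomputable def pt0 (q : ℕ) (p : (ZMod q × ZMod q) × Fin 8) : (ZMod q × ZMod q) × Fin 8 :=
  if h : (p.2 : ℕ) < 4 then
    ((Equiv.ofBijective _ (mg_bij q ⟨p.2, h⟩)).symm p.1, ⟨p.2 + 4, by omega⟩)
  else (mg q ⟨p.2 - 4, by omega⟩ p.1, ⟨p.2 - 4, by omega⟩)

theorem pt0_lo (q : ℕ) (u : ZMod q × ZMod q) (i : Fin 4) :
    pt0 q (u, ⟨i, by omega⟩) =
      ((Equiv.ofBijective _ (mg_bij q i)).symm u, ⟨i + 4, by omega⟩) := by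
  unfold pt0
  rw [dif_pos i.2]

theorem pt0_hi (q : ℕ) (u : ZMod q × ZMod q) (i : Fin 4) :
    pt0 q (u, ⟨i + 4, by omega⟩) = (mg q i u, ⟨i, by omega⟩) := by
  unfold pt0
  rw [dif_neg (by simp)]
  simp

theorem tsS_lo {q n : ℕ} (e : (ZMod q × ZMod q) × Fin 4 ≃ Fin n) (u : ZMod q × ZMod q)
    (i : Fin 4) : tsS e u ⟨i, by omega⟩ = e (u, i) := by
  unfold tsS
  rw [dif_pos i.2]

theorem tsS_hi {q n : ℕ} (e : (ZMod q × ZMod q) × Fin 4 ≃ Fin n) (u : ZMod q × ZMod q)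
    (i : Fin 4) : tsS e u ⟨i + 4, by omega⟩ = e (mg q i u, i) := by
  unfold tsS
  rw [dif_neg (by simp)]
  simp

theorem fin8_cases (c : Fin 8) :
    (∃ i : Fin 4, c = ⟨i, by omega⟩) ∨ ∃ i : Fin 4, c = ⟨i + 4, by omega⟩ := by
  by_cases h : (c : ℕ) < 4
  · exact Or.inl ⟨⟨c, h⟩, rfl⟩
  · exact Or.inr ⟨⟨c - 4, by omega⟩, Fin.ext (by simp; omega)⟩

theorem pt0_pt0 (q : ℕ) (p : (ZMod q × ZMod q) × Fin 8) : pt0 q (pt0 q p) = p := by
  obtain ⟨u, c⟩ := p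
  rcases fin8_cases c with ⟨i, rfl⟩ | ⟨i, rfl⟩
  · rw [pt0_lo, pt0_hi]
    congr 1
    exact (Equiv.ofBijective _ (mg_bij q i)).apply_symm_apply u
  · rw [pt0_hi, pt0_lo]
    congr 1
    exact (Equiv.ofBijective _ (mg_bij q i)).symm_apply_apply u

theorem pt0_ne (q : ℕ) (p : (ZMod q × ZMod q) × Fin 8) : pt0 q p ≠ p := by
  obtain ⟨u, c⟩ := p
  rcases fin8_cases c with ⟨i, rfl⟩ | ⟨i, rfl⟩
  · rw [pt0_lo]
    intro h
    have := congrArg (fun p => (p.2 : ℕ)) h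
    simp at this
  · rw [pt0_hi]
    intro h
    have := congrArg (fun p => (p.2 : ℕ)) h
    simp at this

theorem tsS_pt0 {q n : ℕ} (e : (ZMod q × ZMod q) × Fin 4 ≃ Fin n)
    (p : (ZMod q × ZMod q) × Fin 8) : tsS e (pt0 q p).1 (pt0 q p).2 = tsS e p.1 p.2 := by
  obtain ⟨u, c⟩ := p
  rcases fin8_cases c with ⟨i, rfl⟩ | ⟨i, rfl⟩
  · rw [pt0_lo]
    dsimp only
    rw [tsS_hi, tsS_lo]
    congr 2
    exact (Equiv.ofBijective _ (mg_bij q i)).apply_symm_apply u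
  · rw [pt0_hi]
    dsimp only
    rw [tsS_hi, tsS_lo]

theorem sys (q : ℕ) [NeZero q] :
    ∃ (S : Fin (q ^ 2) → Fin 8 → Fin (q ^ 2 * 4)) (b : Fin (q ^ 2) → Bool)
      (pt : Fin (q ^ 2) × Fin 8 → Fin (q ^ 2) × Fin 8),
      (∀ p, pt (pt p) = p) ∧ (∀ p, pt p ≠ p) ∧ (∀ p, S (pt p).1 (pt p).2 = S p.1 p.2) ∧
      Odd (univ.filter fun u => b u = true).card ∧
      ∀ T : Finset (Fin (q ^ 2)), 2 * T.card ≤ q ^ 2 → T.card ≤ 8 * (bdry S T).card := by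
  have hE : Fintype.card (ZMod q × ZMod q) = q ^ 2 := by
    rw [Fintype.card_prod, ZMod.card, sq]
  let g : ZMod q × ZMod q ≃ Fin (q ^ 2) := Fintype.equivFinOfCardEq hE
  let e : (ZMod q × ZMod q) × Fin 4 ≃ Fin (q ^ 2 * 4) :=
    Fintype.equivFinOfCardEq (by rw [Fintype.card_prod, hE, Fintype.card_fin])
  refine ⟨fun u => tsS e (g.symm u), fun u => tsB (g.symm u),
    fun p => (g (pt0 q (g.symm p.1, p.2)).1, (pt0 q (g.symm p.1, p.2)).2), ?_, ?_, ?_, ?_, ?_⟩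
  · intro p
    simp only [Equiv.symm_apply_apply, Prod.mk.eta, pt0_pt0, Equiv.apply_symm_apply]
  · intro p h
    apply pt0_ne q (g.symm p.1, p.2)
    have h1 := congrArg Prod.fst h
    have h2 := congrArg Prod.snd h
    dsimp only at h1 h2
    exact Prod.ext (g.eq_symm_apply.2 h1) h2
  · intro p
    simp only [Equiv.symm_apply_apply]
    exact tsS_pt0 e (g.symm p.1, p.2)
  · have : (univ.filter fun u : Fin (q ^ 2) => tsB (g.symm u) = true) = {g 0} := by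
      ext u
      simp only [tsB, decide_eq_true_eq, mem_filter, mem_univ, true_and, mem_singleton,
        Equiv.symm_apply_eq]
    rw [this, card_singleton]
    exact odd_one
  · intro T hT
    have h := ts_bdry e (T.map g.symm.toEmbedding) (by rwa [card_map])
    rw [card_map] at h
    refine h.trans (le_of_eq ?_)
    congr 2
    unfold bdry
    simp only [sum_map, Equiv.coe_toEmbedding]

theorem sig_bound {k n : ℕ} (S : Fin k → Fin 8 → Fin n) (b : Fin k → Bool) (R : ℕ)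
    (z : Fin n → Bool) : |psSig S b R z| ≤ 2 ^ k := by
  unfold psSig
  refine (abs_sum_le_sum_abs _ _).trans ?_
  have h : ∀ T ∈ univ.filter (fun T : Finset (Fin k) => T.card ≤ R), |psG S b T z| = 1 := by
    intro T _
    rcases psG_cases S b T z with h | h <;> simp [h]
  rw [sum_congr rfl h, sum_const, nsmul_eq_mul, mul_one]
  have h2 : (univ.filter fun T : Finset (Fin k) => T.card ≤ R).card ≤ 2 ^ k := by
    refine (card_le_univ _).trans (le_of_eq ?_)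
    rw [Fintype.card_finset, Fintype.card_fin]
  exact_mod_cast h2

theorem sig_neg {k n : ℕ} (S : Fin k → Fin 8 → Fin n) (b : Fin k → Bool) (R : ℕ) (hR : 1 ≤ R)
    (hexp : ∀ T : Finset (Fin k), T.card ≤ 2 * R → T.card ≤ 8 * (bdry S T).card) :
    𝔼 z, psSig S b R z * (∑ u, ind (Viol S b u z) - 1) = -1 := by
  have h0 : ∀ T : Finset (Fin k), T.Nonempty → T.card ≤ 2 * R → (bdry S T).Nonempty := by
    intro T h1 h2
    have := hexp T h2
    have := h1.card_pos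
    exact card_pos.1 (by omega)
  have m1 : 𝔼 z, psSig S b R z = 1 := by
    have h := psSig_mul S b R h0 ∅ (by simp)
    simpa [psG] using h
  have m2 : ∀ u, 𝔼 z, psSig S b R z * ind (Viol S b u z) = 0 := by
    intro u
    have h := psSig_mul S b R h0 {u} (by simpa using hR)
    have e : ∀ z, psSig S b R z * ind (Viol S b u z) =
        (1 / 2 : ℝ) * (psSig S b R z - psSig S b R z * psG S b {u} z) := by
      intro z
      simp only [psG, prod_singleton, psS, ind]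
      split_ifs <;> ring
    simp only [e]
    rw [← mul_expect, expect_sub_distrib, h, m1]
    norm_num
  simp only [mul_sub, mul_sum, mul_one]
  rw [expect_sub_distrib, expect_sum_comm, m1, sum_congr rfl fun u _ => m2 u]
  simp

theorem slk_le {W : Type} [Fintype W] (μ : W → W) (c : W → Bool) :
    slk μ c ≤ (Fintype.card W : ℝ) := by
  unfold slk
  have h1 : ((univ.filter fun w => c w ≠ c (μ w)).card : ℝ) ≤ Fintype.card W := by
    exact_mod_cast card_le_univ _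
  have h2 := ind_nonneg (Odd (univ.filter fun w => c w = true).card)
  have h3 : (0 : ℝ) ≤ Fintype.card W := by positivity
  linarith

theorem pm_core (L : ℕ) (hL : 0 < L) (t : ℝ) (ht : 1 ≤ t)
    (hε : t ^ 4 * 256 ^ 2 * (64 / (L : ℝ)) ≤ 1) (q d N m : ℕ) (hq : 2 ≤ q)
    (hN : q ^ 2 * (L * 10 + 2) + d * 2 = N) {V : Type} [AddCommGroup V] [Module ℝ V]
    (M : V →ᵃ[ℝ] Matrix (Fin m) (Fin m) ℝ)
    (π : V →ᵃ[ℝ] ({p : Fin N × Fin N // p.1 < p.2} → ℝ))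
    (h : π '' {w | (M w).PosSemidef} = convexHull ℝ
      {ξ | ∃ μ : Fin N → Fin N, (∀ i, μ (μ i) = i) ∧ (∀ i, μ i ≠ i) ∧
        ξ = fun p : {p : Fin N × Fin N // p.1 < p.2} => if μ p.1.1 = p.1.2 then (1 : ℝ) else 0}) :
    t ^ (2 * (q ^ 2 / 1024)) ≤
      8 * (2 ^ q ^ 2) ^ 2 * (257 ^ 2 * 66) ^ q ^ 2 * (N : ℝ) ^ 2 * ((m : ℝ) + 1) ^ 2 := by
  have : NeZero q := ⟨by omega⟩
  have : Nonempty (Fin L) := ⟨⟨0, hL⟩⟩
  have h4 : 4 ≤ q ^ 2 := Nat.pow_le_pow_left hq 2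
  obtain ⟨S, b, pt, p1, p2, p3, p4, p5⟩ := sys q
  have hW : Fintype.card (WV (q ^ 2) L d) = N := by
    simp only [WV, Fintype.card_sum, Fintype.card_prod, Fintype.card_fin, Fintype.card_bool, hN]
  have hN0 : 0 < N := by
    rw [← hN]
    positivity
  obtain ⟨Z, hZ, hstar⟩ := poly M π h (Fintype.equivFinOfCardEq hW)
    (fun x : Fin (q ^ 2) → GX L => (mt pt x : WV (q ^ 2) L d → WV (q ^ 2) L d))
    (mt_mt pt p1) (mt_ne pt p2) (fun y : Fin (q ^ 2) → GY L => clr b y)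
  obtain ⟨A, B, hA, hB, hsum, hf⟩ := fact
    (fun (x : Fin (q ^ 2) → GX L) (y : Fin (q ^ 2) → GY L) =>
      slk (mt pt x : WV (q ^ 2) L d → WV (q ^ 2) L d) (clr b y)) Z hZ hstar
  have hexp : ∀ T : Finset (Fin (q ^ 2)), T.card ≤ 2 * (q ^ 2 / 4) →
      T.card ≤ 8 * (bdry S T).card := fun T hT => p5 T (by omega)
  have hC : (Fintype.card (Fin 8 → Bool) : ℝ) = 256 := by
    rw [Fintype.card_fun, Fintype.card_bool, Fintype.card_fin]
    norm_num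
  have key := core (col (L := L)) (rf (L := L)) (fun _ => false) 32 (64 / L) (gad_mix L hL)
    (by norm_num) t ht (by rw [hC]; exact hε) (q ^ 2) (q ^ 2 / 1024)
    (fun (z : Fin (q ^ 2 * 4) → Bool) u c => z (S u c)) (psSig S b (q ^ 2 / 4)) (2 ^ q ^ 2)
    (by positivity) (sig_bound S b _) (sos S b (q ^ 2 / 4) (q ^ 2 / 1024) hexp (by omega))
    A B hA hB hsum _ hf (N : ℝ) (by exact_mod_cast hN0)
    (fun x y => by rw [← hW]; exact slk_le _ _)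
    (fun x => by
      simp only [slk_col pt S b p3 p4, ex_const]
      exact (sig_neg S b _ (by omega) hexp).le)
  rw [hC, Fintype.card_option, Fintype.card_fin] at key
  push_cast at key
  norm_num at key ⊢
  exact key

theorem sq_le_pow (r : ℕ) (hr : 4 ≤ r) : r * r ≤ 2 ^ r := by
  induction r, hr using Nat.le_induction with
  | base => norm_num
  | succ k hk ih => rw [pow_succ]; nlinarith

theorem pm_num (T k r N m : ℕ) (hT : 25605 ≤ T) (hr : 1 ≤ r) (hk : k ≤ 2048 * r) (hN : N ≤ 2 ^ r)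
    (h : ((2 : ℝ) ^ T) ^ (2 * r) ≤
      8 * (2 ^ k) ^ 2 * (257 ^ 2 * 66) ^ k * (N : ℝ) ^ 2 * ((m : ℝ) + 1) ^ 2) : 2 ^ r ≤ m := by
  by_contra hc
  have hm : (m : ℝ) + 1 ≤ 2 ^ r := by
    have : m + 1 ≤ 2 ^ r := by omega
    exact_mod_cast this
  have hN' : (N : ℝ) ≤ 2 ^ r := by exact_mod_cast hN
  have a1 : ((257 : ℝ) ^ 2 * 66) ^ k ≤ (2 ^ 23) ^ k :=
    pow_le_pow_left₀ (by norm_num) (by norm_num) k
  have a2 : (N : ℝ) ^ 2 ≤ (2 ^ r) ^ 2 := pow_le_pow_left₀ (by positivity) hN' 2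
  have a3 : ((m : ℝ) + 1) ^ 2 ≤ (2 ^ r) ^ 2 := pow_le_pow_left₀ (by positivity) hm 2
  have a4 : 8 * ((2 : ℝ) ^ k) ^ 2 * (257 ^ 2 * 66) ^ k * (N : ℝ) ^ 2 * ((m : ℝ) + 1) ^ 2
      ≤ 2 ^ 3 * ((2 : ℝ) ^ k) ^ 2 * (2 ^ 23) ^ k * (2 ^ r) ^ 2 * (2 ^ r) ^ 2 := by
    rw [show (8 : ℝ) = 2 ^ 3 by norm_num]
    gcongr
  have a5 := h.trans a4
  simp only [← pow_mul, ← pow_add] at a5
  have a6 := (pow_le_pow_iff_right₀ (by norm_num : (1 : ℝ) < 2)).1 a5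
  nlinarith

theorem pm_sdp : ∃ c : ℝ, 0 < c ∧ ∃ n₀ : ℕ, ∀ n ≥ n₀, ∀ (m : ℕ) (V : Type) [AddCommGroup V]
    [Module ℝ V] (M : V →ᵃ[ℝ] Matrix (Fin m) (Fin m) ℝ)
    (π : V →ᵃ[ℝ] ({p : Fin (2 * n) × Fin (2 * n) // p.1 < p.2} → ℝ)),
    π '' {w | (M w).PosSemidef} = convexHull ℝ
      {ξ | ∃ μ : Fin (2 * n) → Fin (2 * n), (∀ i, μ (μ i) = i) ∧ (∀ i, μ i ≠ i) ∧
        ξ = fun p : {p : Fin (2 * n) × Fin (2 * n) // p.1 < p.2} =>
          if μ p.1.1 = p.1.2 then (1 : ℝ) else 0} →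
    (2 : ℝ) ^ (c * n) ≤ m := by
  obtain ⟨T, hT⟩ : ∃ T : ℕ, 25605 ≤ T := ⟨_, le_rfl⟩
  have ht : (1 : ℝ) ≤ 2 ^ T := one_le_pow₀ one_le_two
  obtain ⟨L, hL⟩ := exists_nat_ge (((2 : ℝ) ^ T) ^ 4 * 256 ^ 2 * 64)
  have hL0 : (0 : ℝ) < L := lt_of_lt_of_le (by positivity) hL
  have hL1 : 0 < L := by exact_mod_cast hL0
  have hε : ((2 : ℝ) ^ T) ^ 4 * 256 ^ 2 * (64 / (L : ℝ)) ≤ 1 := by
    rw [← mul_div_assoc, div_le_one hL0]
    exact hL
  obtain ⟨a, ha⟩ : ∃ a : ℕ, a = 5 * L + 1 := ⟨_, rfl⟩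
  have a0 : 0 < a := by omega
  refine ⟨1 / (8192 * a), by positivity, 4 * (1024 * (16384 * a)) * a, ?_⟩
  intro n hn m V _ _ M π h
  obtain ⟨q, hq⟩ : ∃ q : ℕ, q = Nat.sqrt (n / a) := ⟨_, rfl⟩
  have q1 : q ^ 2 ≤ n / a := by rw [hq]; exact Nat.sqrt_le' _
  have q2 : n / a < (q + 1) ^ 2 := by rw [hq]; exact Nat.lt_succ_sqrt' _
  have n1 : 4 * (1024 * (16384 * a)) ≤ n / a := (Nat.le_div_iff_mul_le a0).2 hn
  have n2 : q ^ 2 * a ≤ n := (Nat.le_div_iff_mul_le a0).1 q1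
  have n3 : n < (q + 1) ^ 2 * a := (Nat.div_lt_iff_lt_mul a0).1 q2
  have q3 : 2 ≤ q := by
    by_contra hc
    have : (q + 1) ^ 2 ≤ 2 ^ 2 := Nat.pow_le_pow_left (by omega) 2
    omega
  have q4 : (q + 1) ^ 2 ≤ 4 * q ^ 2 := by nlinarith
  obtain ⟨r, hr⟩ : ∃ r : ℕ, r = q ^ 2 / 1024 := ⟨_, rfl⟩
  have r1 : 16384 * a ≤ r := by omega
  have r2 : q ^ 2 ≤ 2048 * r := by omega
  have n4 : n ≤ 8192 * a * r := by
    calc n ≤ (q + 1) ^ 2 * a := n3.le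
      _ ≤ (4 * (2048 * r)) * a := Nat.mul_le_mul_right a (by omega)
      _ = 8192 * a * r := by ring
  have n5 : 2 * n ≤ 2 ^ r := by
    calc 2 * n ≤ 16384 * a * r := by
          calc 2 * n ≤ 2 * (8192 * a * r) := by omega
            _ = 16384 * a * r := by ring
      _ ≤ r * r := Nat.mul_le_mul_right r r1
      _ ≤ 2 ^ r := sq_le_pow r (by omega)
  have key := pm_core L hL1 _ ht hε q (n - q ^ 2 * a) (2 * n) m q3 (by
    have : q ^ 2 * (L * 10 + 2) = 2 * (q ^ 2 * a) := by rw [ha]; ring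
    omega) M π h
  rw [← hr] at key
  have h2 := pm_num T (q ^ 2) r (2 * n) m hT (by omega) r2 n5 key
  have h3 : (2 : ℝ) ^ (r : ℝ) ≤ m := by
    rw [Real.rpow_natCast]
    exact_mod_cast h2
  refine le_trans (Real.rpow_le_rpow_of_exponent_le (by norm_num) ?_) h3
  rw [div_mul_eq_mul_div, one_mul, div_le_iff₀ (by positivity)]
  have : (n : ℝ) ≤ 8192 * a * r := by exact_mod_cast n4
  linarith

end Pool.Agent.Lib.MP_8a52c3_lc.PM
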